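import Pool.Agent.Lib.MP_410da7_ag.CYSystem

/-!
# The points on curves of bounded degree form a closed set
-/

set_option autoImplicit false

namespace Pool.Agent.Lib.MP_410da7_ag

open MvPolynomial

section isobaric

variable {σ R : Type} [CommRing R] (wt : σ → ℕ)

/-- the coefficient of `t ^ n` is weighted homogeneous of weight `n` -/
def SIso (P : Polynomial (MvPolynomial σ R)) : Prop :=
  ∀ n, (P.coeff n).IsWeightedHomogeneous wt n

theorem SIso.zero : SIso wt (0 : Polynomial (MvPolynomial σ R)) := by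
  intro n
  rw [Polynomial.coeff_zero]
  exact isWeightedHomogeneous_zero R wt n

theorem SIso.constC (c : R) : SIso wt (Polynomial.C (C c) : Polynomial (MvPolynomial σ R)) := by
  intro n
  rw [Polynomial.coeff_C]
  by_cases h : n = 0
  · rw [if_pos h, h]
    exact isWeightedHomogeneous_C wt c
  · rw [if_neg h]
    exact isWeightedHomogeneous_zero R wt n

theorem SIso.one : SIso wt (1 : Polynomial (MvPolynomial σ R)) := by
  have h := SIso.constC wt (1 : R)
  rwa [C_1, Polynomial.C_1] at h

theorem SIso.var (i : σ) (m : ℕ) (hm : wt i = m) :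
    SIso wt (Polynomial.C (X i) * Polynomial.X ^ m : Polynomial (MvPolynomial σ R)) := by
  intro n
  rw [Polynomial.coeff_C_mul_X_pow]
  by_cases h : n = m
  · rw [if_pos h, h, ← hm]
    exact isWeightedHomogeneous_X R wt i
  · rw [if_neg h]
    exact isWeightedHomogeneous_zero R wt n

variable {wt}

theorem SIso.add {P Q : Polynomial (MvPolynomial σ R)} (hP : SIso wt P)
    (hQ : SIso wt Q) : SIso wt (P + Q) := by
  intro n
  rw [Polynomial.coeff_add]
  exact (hP n).add (hQ n)

theorem SIso.sum {ι : Type} (s : Finset ι) (P : ι → Polynomial (MvPolynomial σ R))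
    (h : ∀ i ∈ s, SIso wt (P i)) : SIso wt (∑ i ∈ s, P i) := by
  classical
  induction s using Finset.induction_on with
  | empty =>
    rw [Finset.sum_empty]
    exact SIso.zero wt
  | insert a s ha ih =>
    rw [Finset.sum_insert ha]
    exact (h a (Finset.mem_insert_self a s)).add
      (ih (fun i hi => h i (Finset.mem_insert_of_mem hi)))

theorem SIso.mul {P Q : Polynomial (MvPolynomial σ R)} (hP : SIso wt P)
    (hQ : SIso wt Q) : SIso wt (P * Q) := by
  intro n
  rw [Polynomial.coeff_mul]
  apply IsWeightedHomogeneous.sum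
  intro x hx
  rw [← Finset.HasAntidiagonal.mem_antidiagonal.1 hx]
  exact (hP x.1).mul (hQ x.2)

theorem SIso.pow {P : Polynomial (MvPolynomial σ R)} (hP : SIso wt P) (k : ℕ) :
    SIso wt (P ^ k) := by
  induction k with
  | zero =>
    rw [pow_zero]
    exact SIso.one wt
  | succ k ih =>
    rw [pow_succ]
    exact ih.mul hP

theorem SIso.prod {ι : Type} (s : Finset ι) (P : ι → Polynomial (MvPolynomial σ R))
    (h : ∀ i ∈ s, SIso wt (P i)) : SIso wt (∏ i ∈ s, P i) := by
  classical
  induction s using Finset.induction_on with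
  | empty =>
    rw [Finset.prod_empty]
    exact SIso.one wt
  | insert a s ha ih =>
    rw [Finset.prod_insert ha]
    exact (h a (Finset.mem_insert_self a s)).mul
      (ih (fun i hi => h i (Finset.mem_insert_of_mem hi)))

end isobaric

section

variable {N : ℕ} {κ : Type} (F : κ → MvPolynomial (Fin N) ℂ) (dl : Fin N → ℕ)
  {R : Type} [CommRing R] [Algebra ℂ R] (x : Fin N → R)

/-- the generic curve -/
noncomputable def scp : Fin N → Polynomial (MvPolynomial (Σ l : Fin N, Fin (dl l)) R) :=
  curvePoly dl (fun l => C (x l)) (fun q => X q)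

/-- the system of equations -/
noncomputable def sys (t : κ × ℕ) : MvPolynomial (Σ l : Fin N, Fin (dl l)) R :=
  (aeval (scp dl x) (F t.1)).coeff (t.2 + 1)

/-- the weights -/
def swt (q : Σ l : Fin N, Fin (dl l)) : ℕ := q.2.1 + 1

theorem sys_iso (t : κ × ℕ) : (sys F dl x t).IsWeightedHomogeneous (swt dl) (t.2 + 1) := by
  have hcp : ∀ l, SIso (swt dl) (scp dl x l) := by
    intro l
    refine (SIso.constC (swt dl) (x l)).add (SIso.sum _ _ fun i _ => ?_)
    exact SIso.var (swt dl) ⟨l, i⟩ (i.1 + 1) rfl
  have h1 : SIso (swt dl) (aeval (scp dl x) (F t.1)) := by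
    rw [aeval_def, eval₂_eq']
    refine SIso.sum _ _ fun α _ => ?_
    refine SIso.mul ?_ (SIso.prod _ _ fun l _ => (hcp l).pow _)
    have : algebraMap ℂ (Polynomial (MvPolynomial (Σ l : Fin N, Fin (dl l)) R))
        ((F t.1).coeff α) = Polynomial.C (C (algebraMap ℂ R ((F t.1).coeff α))) := by
      rw [IsScalarTower.algebraMap_apply ℂ (MvPolynomial (Σ l : Fin N, Fin (dl l)) R)
        (Polynomial (MvPolynomial (Σ l : Fin N, Fin (dl l)) R)),
        IsScalarTower.algebraMap_apply ℂ R (MvPolynomial (Σ l : Fin N, Fin (dl l)) R)]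
      rfl
    rw [this]
    exact SIso.constC (swt dl) _
  exact h1 (t.2 + 1)

variable {L : Type} [CommRing L] [Algebra ℂ L] (φ : R →ₐ[ℂ] L)

/-- values of the system -/
theorem eval_sys (a : (Σ l : Fin N, Fin (dl l)) → L) (t : κ × ℕ) :
    eval₂ (φ : R →+* L) a (sys F dl x t) =
      (aeval (curvePoly dl (fun l => φ (x l)) a) (F t.1)).coeff (t.2 + 1) := by
  let ψ : MvPolynomial (Σ l : Fin N, Fin (dl l)) R →ₐ[ℂ] L :=
    { eval₂Hom (φ : R →+* L) a with
      commutes' := fun c => by
        have h1 : algebraMap ℂ (MvPolynomial (Σ l : Fin N, Fin (dl l)) R) c =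
            C (algebraMap ℂ R c) := by
          rw [IsScalarTower.algebraMap_apply ℂ R (MvPolynomial (Σ l : Fin N, Fin (dl l)) R)]
          rfl
        change eval₂Hom (φ : R →+* L) a (algebraMap ℂ _ c) = _
        rw [h1, eval₂Hom_C]
        exact φ.commutes c }
  have hψ : ∀ z, ψ z = eval₂ (φ : R →+* L) a z := fun z => rfl
  rw [← hψ, sys]
  have h1 := curve_map_aeval ψ (scp dl x) (F t.1)
  have h2 : (fun l => (scp dl x l).map (ψ : MvPolynomial (Σ l : Fin N, Fin (dl l)) R →+* L)) =
      curvePoly dl (fun l => φ (x l)) a := by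
    funext l
    rw [scp, curvePoly_map]
    congr 1
    · funext l
      change ψ (C (x l)) = φ (x l)
      rw [hψ, eval₂_C]
      rfl
    · funext q
      change ψ (X q) = a q
      rw [hψ, eval₂_X]
  rw [h2] at h1
  rw [← h1, Polynomial.coeff_map]
  rfl

end

end Pool.Agent.Lib.MP_410da7_ag
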