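import Pool.Agent.Lib.MP_410da7_ag.CYGraded

/-!
# Positively graded systems with only the trivial zero: openness
-/

set_option autoImplicit false

namespace Pool.Agent.Lib.MP_410da7_ag

open MvPolynomial

theorem exists_spread {σ τ : Type} [Finite σ] {R : Type} [CommRing R] [Algebra ℂ R]
    (wt : σ → ℕ) (hwt : ∀ i, 0 < wt i) (E : τ → MvPolynomial σ R) (dg : τ → ℕ)
    (hE : ∀ t, (E t).IsWeightedHomogeneous wt (dg t)) (φ : R →ₐ[ℂ] ℂ)
    (hz : ∀ a : σ → ℂ, (∀ t, eval₂ (φ : R →+* ℂ) a (E t) = 0) → a = 0) :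
    ∃ H : R, φ H = 1 ∧ ∀ (L : Type) [Field L] (ψ : R →+* L), ψ H ≠ 0 → ∀ a : σ → L,
      (∀ t, eval₂ ψ a (E t) = 0) → a = 0 := by
  classical
  have := Fintype.ofFinite σ
  let E0 : τ → MvPolynomial σ ℂ := fun t => map (φ : R →+* ℂ) (E t)
  have hE0 : ∀ t, (E0 t).IsWeightedHomogeneous wt (dg t) := by
    intro t d hd
    apply hE t
    intro h0
    apply hd
    rw [coeff_map, h0, map_zero]
  set I0 : Ideal (MvPolynomial σ ℂ) := Ideal.span (Set.range E0) with hI0
  have hrad : ∀ j, (X j : MvPolynomial σ ℂ) ∈ I0.radical := by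
    intro j
    rw [← vanishingIdeal_zeroLocus_eq_radical (K := ℂ), mem_vanishingIdeal_iff]
    intro a ha
    have h1 : a = 0 := by
      apply hz
      intro t
      have h2 := ha (E0 t) (Ideal.subset_span ⟨t, rfl⟩)
      have h3 : eval a (E0 t) = 0 := by simpa using h2
      rw [← h3, eval_map]
    rw [h1]
    simp
  choose n hn using fun j => Ideal.mem_radical_iff.1 (hrad j)
  set M := ∑ j, n j with hM
  have hXM : ∀ j, (X j : MvPolynomial σ ℂ) ^ M ∈ I0 := by
    intro j
    have h1 : n j ≤ ∑ j, n j := Finset.single_le_sum (fun _ _ => Nat.zero_le _) (Finset.mem_univ j)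
    exact Ideal.pow_mem_of_pow_mem _ (hn j) h1
  set W := (∏ i, wt i) * (M * ∑ i, wt i + 1) with hW
  have hprod : 1 ≤ ∏ i, wt i := Finset.prod_pos fun i _ => hwt i
  have hmon : ∀ α : σ →₀ ℕ, Finsupp.weight wt α = W → (monomial α (1 : ℂ)) ∈ I0 := by
    intro α hα
    have hex : ∃ i, M ≤ α i := by
      by_contra hcon
      push Not at hcon
      rw [Finsupp.weight_apply, Finsupp.sum_fintype _ _ (by simp)] at hα
      have h1 : ∑ i, α i • wt i ≤ M * ∑ i, wt i := by
        rw [Finset.mul_sum]
        refine Finset.sum_le_sum fun i _ => ?_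
        rw [smul_eq_mul]
        exact Nat.mul_le_mul_right _ (hcon i).le
      have h2 : M * ∑ i, wt i + 1 ≤ W := by
        rw [hW]
        exact Nat.le_mul_of_pos_left _ hprod
      omega
    obtain ⟨i, hi⟩ := hex
    have h1 : α = Finsupp.single i M + (α - Finsupp.single i M) := by
      rw [add_tsub_cancel_of_le]
      rwa [Finsupp.single_le_iff]
    have h2 : (monomial α (1 : ℂ)) = X i ^ M * monomial (α - Finsupp.single i M) 1 := by
      rw [X_pow_eq_monomial, monomial_mul, one_mul, ← h1]
    rw [h2]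
    exact I0.mul_mem_right _ (hXM i)
  set I : Ideal (MvPolynomial σ R) := Ideal.span (Set.range E) with hI
  let mk : MvPolynomial σ R →ₗ[R] (MvPolynomial σ R ⧸ I) := (Ideal.Quotient.mkₐ R I).toLinearMap
  have hmk : ∀ z, mk z = Ideal.Quotient.mk I z := fun z => rfl
  let B : Set (σ →₀ ℕ) := {α | Finsupp.weight wt α = W}
  have hBfin : B.Finite := by
    apply Set.Finite.subset (Set.finite_Iic (Finsupp.equivFunOnFinite.symm fun _ : σ => W))
    intro α hα
    rw [Set.mem_Iic]
    intro i
    have h1 : Finsupp.weight wt α = W := hα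
    rw [Finsupp.weight_apply, Finsupp.sum_fintype _ _ (by simp)] at h1
    have h2 : α i • wt i ≤ ∑ i, α i • wt i :=
      Finset.single_le_sum (f := fun i => α i • wt i) (fun _ _ => Nat.zero_le _)
        (Finset.mem_univ i)
    have h3 : α i ≤ α i • wt i := by
      rw [smul_eq_mul]
      exact Nat.le_mul_of_pos_right _ (hwt i)
    change α i ≤ W
    omega
  let Nn : Submodule R (MvPolynomial σ R ⧸ I) :=
    Submodule.span R ((fun α => mk (monomial α (1 : R))) '' B)
  have hNfg : Nn.FG := Submodule.fg_span (hBfin.image _)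
  have hle : Nn ≤ RingHom.ker (φ : R →+* ℂ) • Nn := by
    refine Submodule.span_le.2 ?_
    rintro _ ⟨α, hα, rfl⟩
    obtain ⟨c, hc⟩ := Finsupp.mem_span_range_iff_exists_finsupp.1 (hmon α hα)
    have hα' : Finsupp.weight wt α = W := hα
    let C' : τ → MvPolynomial σ ℂ := fun t =>
      if dg t ≤ W then weightedHomogeneousComponent wt (W - dg t) (c t) else 0
    have hsum : (monomial α (1 : ℂ)) = ∑ t ∈ c.support, C' t * E0 t := by
      have h2 := congrArg (weightedHomogeneousComponent wt W) hc
      rw [weightedHomogeneousComponent_of_mem (isWeightedHomogeneous_monomial wt α 1 hα'),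
        if_pos rfl, Finsupp.sum, map_sum] at h2
      rw [← h2]
      refine Finset.sum_congr rfl fun t _ => ?_
      rw [smul_eq_mul, CYGraded_comp_mul wt _ (dg t) (E0 t) (hE0 t)]
      simp only [C']
      split_ifs
      · rfl
      · rw [zero_mul]
    set Δ : MvPolynomial σ R := monomial α 1 -
      ∑ t ∈ c.support, map (algebraMap ℂ R) (C' t) * E t with hΔ
    have hΔ0 : map (φ : R →+* ℂ) Δ = 0 := by
      rw [hΔ, map_sub, map_sum, map_monomial, map_one, sub_eq_zero, hsum]
      refine Finset.sum_congr rfl fun t _ => ?_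
      rw [map_mul, map_map]
      have h3 : (φ : R →+* ℂ).comp (algebraMap ℂ R) = RingHom.id ℂ := by
        ext z
        exact φ.commutes z
      rw [h3, map_id]
    have hΔW : Δ ∈ weightedHomogeneousSubmodule R wt W := by
      refine Submodule.sub_mem _ (isWeightedHomogeneous_monomial wt α 1 hα')
        (Submodule.sum_mem _ fun t _ => ?_)
      rw [mem_weightedHomogeneousSubmodule]
      simp only [C']
      split_ifs with h4
      · have h5 : (map (algebraMap ℂ R) (weightedHomogeneousComponent wt (W - dg t)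
            (c t))).IsWeightedHomogeneous wt (W - dg t) := by
          intro d hd
          apply weightedHomogeneousComponent_isWeightedHomogeneous (W - dg t) (c t)
          intro h0
          apply hd
          rw [coeff_map, h0, map_zero]
        have h6 := h5.mul (hE t)
        rwa [Nat.sub_add_cancel h4] at h6
      · rw [map_zero, zero_mul]
        exact isWeightedHomogeneous_zero R wt W
    have hmkΔ : mk (monomial α 1) = mk Δ := by
      rw [hΔ, map_sub, map_sum, Finset.sum_eq_zero, sub_zero]
      intro t _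
      rw [hmk, Ideal.Quotient.eq_zero_iff_mem]
      exact I.mul_mem_left _ (Ideal.subset_span ⟨t, rfl⟩)
    change mk (monomial α 1) ∈ _
    rw [hmkΔ, Δ.as_sum, map_sum]
    refine Submodule.sum_mem _ fun β hβ => ?_
    have h7 : (monomial β (coeff β Δ) : MvPolynomial σ R) = coeff β Δ • monomial β 1 := by
      rw [smul_monomial, smul_eq_mul, mul_one]
    rw [h7, map_smul]
    refine Submodule.smul_mem_smul ?_ (Submodule.subset_span ⟨β, ?_, rfl⟩)
    · rw [RingHom.mem_ker, ← coeff_map, hΔ0, coeff_zero]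
    · exact (mem_weightedHomogeneousSubmodule R wt W Δ).1 hΔW (mem_support_iff.1 hβ)
  obtain ⟨H, hH1, hH2⟩ := Submodule.exists_sub_one_mem_and_smul_eq_zero_of_fg_of_le_smul
    (RingHom.ker (φ : R →+* ℂ)) Nn hNfg hle
  refine ⟨H, ?_, ?_⟩
  · rw [RingHom.mem_ker, map_sub, map_one, sub_eq_zero] at hH1
    exact hH1
  · intro L _ ψ hψ a ha
    have hIk : ∀ z ∈ I, eval₂ ψ a z = 0 := by
      intro z hz
      have h1 : I ≤ RingHom.ker (eval₂Hom ψ a) := by
        rw [hI, Ideal.span_le]
        rintro _ ⟨t, rfl⟩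
        exact ha t
      exact h1 hz
    funext i
    have hdvd : wt i ∣ W := (Finset.dvd_prod_of_mem wt (Finset.mem_univ i)).mul_right _
    obtain ⟨q, hq⟩ := hdvd
    have hw : Finsupp.weight wt (Finsupp.single i q) = W := by
      rw [Finsupp.weight_single, smul_eq_mul, hq, mul_comm]
    have h1 := hH2 _ (Submodule.subset_span ⟨Finsupp.single i q, hw, rfl⟩)
    rw [← map_smul, hmk, Ideal.Quotient.eq_zero_iff_mem] at h1
    have h2 := hIk _ h1
    rw [smul_monomial, smul_eq_mul, mul_one, eval₂_monomial,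
      Finsupp.prod_single_index (h := fun n e => a n ^ e) (pow_zero (a i))] at h2
    have hq0 : q ≠ 0 := by
      rintro rfl
      rw [mul_zero] at hq
      have : 1 ≤ W := by
        rw [hW]
        exact Nat.mul_pos hprod (by omega)
      omega
    exact (pow_eq_zero_iff hq0).1 ((mul_eq_zero.1 h2).resolve_left hψ)

end Pool.Agent.Lib.MP_410da7_ag
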