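import Pool.Agent.Lib.MP_410da7_ag.CYTfae
import Pool.Agent.Lib.MP_410da7_agS.SClosed
import Pool.Agent.Lib.MP_410da7_agS.SSpread

/-!
# On an `𝔸¹`-uniruled affine variety every point is on a curve of bounded degree
-/

set_option autoImplicit false

namespace Pool.Agent.Lib.MP_410da7_ag

open MvPolynomial

theorem curvePoly_of_curve {N : ℕ} {B : Type*} [CommRing B] (dl : Fin N → ℕ) (p : Fin N → B)
    (γ : Fin N → Polynomial B) (h0 : ∀ l, (γ l).eval 0 = p l) (hd : ∀ l, (γ l).natDegree ≤ dl l) :
    curvePoly dl p (fun q => (γ q.1).coeff (q.2.1 + 1)) = γ := by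
  funext l
  ext n
  rcases n with _ | n
  · rw [Polynomial.coeff_zero_eq_eval_zero, curvePoly_eval_zero, Polynomial.coeff_zero_eq_eval_zero,
      h0]
  · by_cases hn : n < dl l
    · exact curvePoly_coeff dl p _ l ⟨n, hn⟩
    · rw [Polynomial.coeff_eq_zero_of_natDegree_lt, Polynomial.coeff_eq_zero_of_natDegree_lt]
      · have := hd l
        omega
      · have := curvePoly_natDegree_le dl p (fun q => (γ q.1).coeff (q.2.1 + 1)) l
        omega

/-- An `𝔸¹`-uniruled variety has a curve through its generic point. -/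
theorem generic_curve_of_a1Uniruled {N r s : ℕ} (f : Fin r → MvPolynomial (Fin N) ℂ)
    (g : Fin s → MvPolynomial (Fin N) ℂ) {R : Type} [CommRing R] [IsDomain R] [Algebra ℂ R]
    (x : Fin N → R) (hR : IsCoordRing f g x) (h : A1Uniruled R) :
    ∃ (E : Type) (_ : Field E) (_ : Algebra ℂ E) (φ : R →ₐ[ℂ] E) (γ : Fin N → Polynomial E),
      Function.Injective φ ∧ (∀ l, (γ l).eval 0 = φ (x l)) ∧ (∃ l, 0 < (γ l).natDegree) ∧
      (∀ k n, (aeval γ (f k)).coeff (n + 1) = 0) ∧ ∀ j n, (aeval γ (g j)).coeff (n + 1) = 0 := by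
  classical
  obtain ⟨B, _, _, _, -, -, φ0, hφ0, a, ha⟩ := h
  let E := FractionRing (Polynomial B)
  let ψ0 : Polynomial B →ₐ[ℂ] E := IsScalarTower.toAlgHom ℂ (Polynomial B) E
  have hψ0 : Function.Injective ψ0 := IsFractionRing.injective (Polynomial B) E
  let jB : B →ₐ[ℂ] E := ψ0.comp (Polynomial.CAlgHom (R := ℂ) (A := B))
  have hjB : Function.Injective jB := hψ0.comp Polynomial.C_injective
  let t0 : E := ψ0 Polynomial.X
  let q : Fin N → Polynomial B := fun l => φ0 (x l)
  let γ : Fin N → Polynomial E := fun l => Polynomial.taylor t0 ((q l).map (jB : B →+* E))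
  have hq : ∀ P : MvPolynomial (Fin N) ℂ, aeval q P = φ0 (aeval x P) := by
    intro P
    have h1 : φ0.comp (aeval x) = aeval q := by
      ext l
      simp [q]
    rw [← h1]
    rfl
  have hγ : ∀ P : MvPolynomial (Fin N) ℂ, aeval γ P =
      Polynomial.taylor t0 ((aeval q P).map (jB : B →+* E)) := by
    intro P
    rw [curve_map_aeval]
    let T : Polynomial E →ₐ[ℂ] Polynomial E := (Polynomial.taylorAlgHom t0).restrictScalars ℂ
    have hT : ∀ z, T z = Polynomial.taylor t0 z := fun z => rfl
    have h1 : T.comp (aeval (fun l => (q l).map (jB : B →+* E))) = aeval γ := by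
      ext1 l
      rw [AlgHom.comp_apply, aeval_X, aeval_X, hT]
    rw [← h1, ← hT]
    rfl
  have hev : ∀ z : Polynomial B, (z.map (jB : B →+* E)).eval t0 = ψ0 z := by
    intro z
    induction z using Polynomial.induction_on' with
    | add p q hp hq => rw [Polynomial.map_add, Polynomial.eval_add, hp, hq, map_add]
    | monomial n b =>
      rw [Polynomial.map_monomial, Polynomial.eval_monomial, ← Polynomial.C_mul_X_pow_eq_monomial,
        map_mul, map_pow]
      rfl
  have hunit : ∀ j, ∃ b : B, aeval q (g j) = Polynomial.C b := by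
    intro j
    rw [hq]
    have h1 : IsUnit (φ0 (aeval x (g j))) := (hR.unit j).map φ0
    obtain ⟨b, _, hb⟩ := Polynomial.isUnit_iff.1 h1
    exact ⟨b, hb.symm⟩
  refine ⟨E, inferInstance, inferInstance, ψ0.comp φ0, γ, hψ0.comp hφ0, ?_, ?_, ?_, ?_⟩
  · intro l
    simp only [γ]
    rw [Polynomial.taylor_eval, zero_add, hev]
    rfl
  · by_contra hcon
    push Not at hcon
    have hdeg0 : ∀ l, (q l).natDegree = 0 := by
      intro l
      have h1 := hcon l
      simp only [γ] at h1
      rw [Polynomial.natDegree_taylor, Polynomial.natDegree_map_eq_of_injective (f := (jB : B →+* E)) hjB] at h1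
      omega
    have hconst : ∀ P : MvPolynomial (Fin N) ℂ, (aeval q P).natDegree = 0 := by
      intro P
      have h1 := curve_natDegree_aeval_le (fun _ => 0) q (fun l => (hdeg0 l).le) P
      have h2 : P.weightedTotalDegree (fun _ : Fin N => 0) = 0 := by
        rw [weightedTotalDegree]
        apply Nat.le_zero.1
        apply Finset.sup_le
        intro s _
        rw [Finsupp.weight_apply, Finsupp.sum_fintype _ _ (by simp)]
        simp
      omega
    obtain ⟨n, P, hP⟩ := hR.surj a
    have h1 := congrArg φ0 hP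
    rw [map_mul, map_pow, ← hq, ← hq] at h1
    have hg0 : aeval q (∏ j, g j) ≠ 0 := by
      rw [hq]
      intro h0
      have h2 := hφ0 (h0.trans (map_zero _).symm)
      exact (unit_prod f g x hR).ne_zero h2
    have ha0 : φ0 a ≠ 0 := by
      intro h0
      rw [h0, Polynomial.natDegree_zero] at ha
      exact lt_irrefl _ ha
    have h3 := congrArg Polynomial.natDegree h1
    rw [Polynomial.natDegree_mul ha0 (pow_ne_zero _ hg0), hconst P] at h3
    omega
  · intro k n
    rw [hγ, hq, hR.zero, map_zero, Polynomial.map_zero, map_zero, Polynomial.coeff_zero]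
  · intro j n
    obtain ⟨b, hb⟩ := hunit j
    rw [hγ, hb, Polynomial.map_C, Polynomial.taylor_C, Polynomial.coeff_C_succ]

/-- On an `𝔸¹`-uniruled affine variety every point is on a curve of bounded degree. -/
theorem points_of_a1Uniruled {N r s : ℕ} (f : Fin r → MvPolynomial (Fin N) ℂ)
    (g : Fin s → MvPolynomial (Fin N) ℂ) (w : Fin N → ℕ) (hw : ∀ l, 0 < w l)
    {R : Type} [CommRing R] [IsDomain R] [Algebra ℂ R]
    (x : Fin N → R) (hR : IsCoordRing f g x) (h : A1Uniruled R) :
    ∃ e : ℕ, ∀ u ∈ Points f g, OnAffineLine f g (fun l => e * w l) u := by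
  classical
  obtain ⟨E, _, _, φ1, γ, hφ1, hγ0, ⟨l0, hl0⟩, hγf, hγg⟩ :=
    generic_curve_of_a1Uniruled f g x hR h
  obtain ⟨e', he'⟩ := exists_equiv f g x hR
  have hU := universal_of_isCoordRing f g x e' he' hR.zero hR.unit
  let e : ℕ := ∑ l, (γ l).natDegree
  let dl : Fin N → ℕ := fun l => e * w l
  have hdeg : ∀ l, (γ l).natDegree ≤ dl l := by
    intro l
    have h1 : (γ l).natDegree ≤ e :=
      Finset.single_le_sum (f := fun l => (γ l).natDegree) (fun _ _ => Nat.zero_le _)
        (Finset.mem_univ l)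
    exact h1.trans (Nat.le_mul_of_pos_right e (hw l))
  refine ⟨e, fun u hu => ?_⟩
  by_contra hcon
  obtain ⟨φ, hφ⟩ := hU.lift u (fun k => hu.1 k) (fun j => isUnit_iff_ne_zero.2 (hu.2 j))
  let F : Fin r ⊕ Fin s → MvPolynomial (Fin N) ℂ := Sum.elim f g
  have hφu : (fun l => φ (x l)) = u := funext hφ
  obtain ⟨H, hH1, hH2⟩ := exists_spread (swt dl) (fun q => Nat.succ_pos _) (sys F dl x)
    (fun t => t.2 + 1) (sys_iso F dl x) φ (by
      intro a ha
      by_contra hne
      apply hcon
      have h2 : ∀ k n, (aeval (curvePoly dl u a) (F k)).coeff (n + 1) = 0 := by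
        intro k n
        have h3 := ha (k, n)
        rw [eval_sys, hφu] at h3
        exact h3
      have h4 : ∀ k, aeval (curvePoly dl u a) (F k) = Polynomial.C (eval u (F k)) := by
        intro k
        ext n
        rcases n with _ | n
        · rw [cySystem_const, Polynomial.coeff_C_zero]
          have h5 : (fun l => (curvePoly dl u a l).eval 0) = u :=
            funext fun l => curvePoly_eval_zero _ _ _ l
          rw [h5]
          rfl
        · rw [Polynomial.coeff_C_succ]
          exact h2 k n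
      refine ⟨curvePoly dl u a, fun l => curvePoly_eval_zero _ _ _ l, ?_,
        fun l => curvePoly_natDegree_le _ _ _ l, fun t => ⟨fun k => ?_, fun j => ?_⟩⟩
      · obtain ⟨q, hq⟩ := Function.ne_iff.1 hne
        refine ⟨q.1, ?_⟩
        by_contra h0
        apply hq
        have h6 := curvePoly_coeff dl u a q.1 q.2
        rw [← h6]
        apply Polynomial.coeff_eq_zero_of_natDegree_lt
        omega
      · rw [eval_comp_curve]
        have := h4 (Sum.inl k)
        simp only [F, Sum.elim_inl] at this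
        rw [this, Polynomial.eval_C, hu.1]
      · rw [eval_comp_curve]
        have := h4 (Sum.inr j)
        simp only [F, Sum.elim_inr] at this
        rw [this, Polynomial.eval_C]
        exact hu.2 j)
  have hH0 : H ≠ 0 := by
    rintro rfl
    rw [map_zero] at hH1
    exact zero_ne_one hH1
  have hfin := hH2 E (φ1 : R →+* E) (by
    intro h0
    exact hH0 (hφ1 (h0.trans (map_zero φ1).symm))) (fun q => (γ q.1).coeff (q.2.1 + 1)) (by
    rintro ⟨k, n⟩
    rw [eval_sys, curvePoly_of_curve dl (fun l => φ1 (x l)) γ hγ0 hdeg]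
    rcases k with k | j
    · exact hγf k n
    · exact hγg j n)
  have hlt : (γ l0).natDegree - 1 < dl l0 := by
    have := hdeg l0
    omega
  have h7 := congrFun hfin ⟨l0, ⟨(γ l0).natDegree - 1, hlt⟩⟩
  have h8 : (γ l0).coeff ((γ l0).natDegree - 1 + 1) = 0 := h7
  rw [Nat.sub_add_cancel hl0] at h8
  have h9 : (γ l0).leadingCoeff = 0 := h8
  rw [Polynomial.leadingCoeff_eq_zero] at h9
  rw [h9, Polynomial.natDegree_zero] at hl0
  exact lt_irrefl _ hl0

end Pool.Agent.Lib.MP_410da7_ag
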