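import Mathlib

/-!
# Algebraic independence through derivations, and specialisation of integral extensions
-/

set_option autoImplicit false

namespace Pool.Agent.Lib.MP_410da7_ag

open MvPolynomial

section

variable {L Ω : Type} [Field L] [Field Ω] [Algebra L Ω]

/-- in characteristic zero a nonconstant polynomial has a nonzero derivative, of smaller degree -/
theorem exists_pderiv_lt [CharZero L] {ι : Type} (P : MvPolynomial ι L) (hP : P.totalDegree ≠ 0) :
    ∃ i, pderiv i P ≠ 0 ∧ (pderiv i P).totalDegree < P.totalDegree := by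
  classical
  have hlt : ∀ i, pderiv i P ≠ 0 → (pderiv i P).totalDegree < P.totalDegree := by
    intro i hi
    rw [totalDegree, Finset.sup_lt_iff (Nat.pos_of_ne_zero hP)]
    intro e he
    rw [mem_support_iff, coeff_pderiv] at he
    have h1 : e + Finsupp.single i 1 ∈ P.support := by
      rw [mem_support_iff]
      exact left_ne_zero_of_mul he
    have h2 := le_totalDegree h1
    rw [Finsupp.sum_add_index' (by simp) (by simp), Finsupp.sum_single_index rfl] at h2
    exact h2
  by_contra hcon
  push Not at hcon
  have h0 : ∀ i, pderiv i P = 0 := fun i => by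
    by_contra hi
    exact absurd (hlt i hi) (not_lt.2 (hcon i hi))
  apply hP
  rw [totalDegree_eq_zero_iff]
  intro m hm i
  by_contra hmi
  have h1 := coeff_pderiv (i := i) P (m - Finsupp.single i 1)
  have h2 : m - Finsupp.single i 1 + Finsupp.single i 1 = m := by
    ext j
    by_cases hj : j = i
    · subst hj
      simp
      omega
    · simp [Ne.symm hj]
  rw [h0 i, coeff_zero, h2] at h1
  rw [mem_support_iff] at hm
  rcases mul_eq_zero.1 h1.symm with h | h
  · exact hm h
  · norm_cast at h

theorem der_aeval {ι : Type} [Fintype ι] (E : ι → Ω) (D : Derivation L Ω Ω)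
    (P : MvPolynomial ι L) : D (aeval E P) = ∑ i, aeval E (pderiv i P) * D (E i) := by
  classical
  induction P using MvPolynomial.induction_on with
  | C a =>
    rw [aeval_C, Derivation.map_algebraMap]
    simp
  | add p q hp hq =>
    rw [map_add, map_add, hp, hq, ← Finset.sum_add_distrib]
    exact Finset.sum_congr rfl fun i _ => by rw [map_add, map_add, add_mul]
  | mul_X p i hp =>
    rw [map_mul, Derivation.leibniz, hp, aeval_X, Finset.smul_sum]
    have : ∀ l, aeval E (pderiv l (p * X i)) = aeval E p * (if i = l then 1 else 0) +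
        E i * aeval E (pderiv l p) := by
      intro l
      simp only [Derivation.leibniz, smul_eq_mul, map_add, map_mul, aeval_X, pderiv_X,
        Pi.single_apply]
      split_ifs with h
      · simp
      · simp
    simp only [this, add_mul, Finset.sum_add_distrib, smul_eq_mul, mul_assoc]
    congr 1
    rw [Finset.sum_eq_single i]
    · simp
    · intro b _ hb; simp [Ne.symm hb]
    · simp

/-- A family on which derivations take independent values is algebraically independent. -/
theorem algebraicIndependent_of_der [CharZero L] {ι : Type} [Fintype ι] (E : ι → Ω) {P' : Type}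
    (D : P' → Derivation L Ω Ω)
    (hspan : Submodule.span Ω (Set.range fun i : P' => fun t => D i (E t)) = ⊤) :
    AlgebraicIndependent L E := by
  classical
  rw [algebraicIndependent_iff]
  have key : ∀ (n : ℕ) (P : MvPolynomial ι L), P.totalDegree = n → P ≠ 0 → aeval E P ≠ 0 := by
    intro n
    induction n using Nat.strong_induction_on with
    | _ n ih =>
      intro P hn hP h0
      by_cases hn0 : P.totalDegree = 0
      · obtain ⟨c, rfl⟩ : ∃ c, P = C c := ⟨_, (totalDegree_eq_zero_iff_eq_C).1 hn0⟩
        rw [aeval_C] at h0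
        apply hP
        rw [(map_eq_zero_iff _ (algebraMap L Ω).injective).1 h0, C_0]
      · obtain ⟨i, hi, hlt⟩ := exists_pderiv_lt P hn0
        let ℓ : (ι → Ω) →ₗ[Ω] Ω :=
          ∑ t, (aeval E (pderiv t P)) • LinearMap.proj (R := Ω) (φ := fun _ : ι => Ω) t
        have hℓ : ∀ u, ℓ u = ∑ t, aeval E (pderiv t P) * u t := by
          intro u
          simp [ℓ, LinearMap.sum_apply]
        have hker : (⊤ : Submodule Ω (ι → Ω)) ≤ LinearMap.ker ℓ := by
          rw [← hspan, Submodule.span_le]
          rintro _ ⟨j, rfl⟩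
          rw [SetLike.mem_coe, LinearMap.mem_ker, hℓ, ← der_aeval, h0, map_zero]
        have h2 : aeval E (pderiv i P) = 0 := by
          have h3 : ℓ (Pi.single i 1) = 0 := hker Submodule.mem_top
          rw [hℓ, Finset.sum_eq_single i] at h3
          · simpa using h3
          · intro j _ hj
            rw [Pi.single_eq_of_ne hj, mul_zero]
          · intro h
            exact absurd (Finset.mem_univ i) h
        exact ih _ (hn ▸ hlt) _ rfl hi h2
  intro P hP
  by_contra h
  exact key _ P rfl h hP

/-- Specialisation: an integral extension of a polynomial ring over an algebraically closed field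
has points over every point of the affine space. -/
theorem exists_hom_integralClosure [IsAlgClosed L] {ι : Type} (E : ι → Ω)
    (hE : AlgebraicIndependent L E) (c : ι → L) :
    ∃ Φ : integralClosure (Algebra.adjoin L (Set.range E)) Ω →ₐ[L] L,
      ∀ t (h : E t ∈ integralClosure (Algebra.adjoin L (Set.range E)) Ω), Φ ⟨E t, h⟩ = c t := by
  classical
  set S := Algebra.adjoin L (Set.range E) with hS
  set T := integralClosure S Ω with hT
  let ψ : S →ₐ[L] L := (aeval c).comp (hE.aevalEquiv.symm : S →ₐ[L] MvPolynomial ι L)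
  have hψE : ∀ t (h : E t ∈ S), ψ ⟨E t, h⟩ = c t := by
    intro t h
    have h1 : (⟨E t, h⟩ : S) = hE.aevalEquiv (X t) := by
      apply Subtype.ext
      have h2 := hE.algebraMap_aevalEquiv (X t)
      rw [aeval_X] at h2
      exact h2.symm
    change aeval c (hE.aevalEquiv.symm ⟨E t, h⟩) = c t
    rw [h1, AlgEquiv.symm_apply_apply, aeval_X]
  have hψs : Function.Surjective ψ := fun a => ⟨algebraMap L S a, ψ.commutes a⟩
  have hmax : (RingHom.ker ψ).IsMaximal := RingHom.ker_isMaximal_of_surjective ψ hψs
  have hinj : Function.Injective (algebraMap S T) := by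
    intro a b hab
    exact Subtype.ext (congrArg (fun z : T => (z : Ω)) hab)
  obtain ⟨Q, hQ, hQP⟩ := Ideal.exists_ideal_over_maximal_of_isIntegral (S := T)
    (RingHom.ker ψ) (by
      intro a ha
      have h1 : a = 0 := hinj (by rw [map_zero]; exact ha)
      rw [h1]
      exact Ideal.zero_mem _)
  have hmkψ : ∀ s : S, Ideal.Quotient.mk Q (algebraMap S T s) =
      algebraMap L (T ⧸ Q) (ψ s) := by
    intro s
    have h1 : s - algebraMap L S (ψ s) ∈ RingHom.ker ψ := by
      rw [RingHom.mem_ker, map_sub, AlgHom.commutes]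
      exact sub_self _
    rw [← hQP, Ideal.mem_comap, map_sub] at h1
    have h2 := Ideal.Quotient.eq.2 h1
    rw [h2]
    rfl
  let _ : Field (T ⧸ Q) := Ideal.Quotient.field Q
  have hint : Algebra.IsIntegral L (T ⧸ Q) := by
    constructor
    intro z
    obtain ⟨τ, rfl⟩ := Ideal.Quotient.mk_surjective z
    obtain ⟨F, hF, hF0⟩ := Algebra.IsIntegral.isIntegral (R := S) τ
    refine ⟨F.map (ψ : S →+* L), hF.map _, ?_⟩
    rw [Polynomial.eval₂_map]
    have h1 : (algebraMap L (T ⧸ Q)).comp (ψ : S →+* L) =
        (Ideal.Quotient.mk Q).comp (algebraMap S T) := by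
      ext s
      exact (hmkψ s).symm
    rw [h1, ← Polynomial.hom_eval₂, hF0, map_zero]
  have hbij : Function.Bijective (algebraMap L (T ⧸ Q)) :=
    IsAlgClosed.algebraMap_bijective_of_isIntegral
  let e : L ≃ₐ[L] (T ⧸ Q) := AlgEquiv.ofBijective (Algebra.ofId L (T ⧸ Q)) hbij
  refine ⟨(e.symm : (T ⧸ Q) →ₐ[L] L).comp (Ideal.Quotient.mkₐ L Q), ?_⟩
  intro t h
  have hm : E t ∈ S := Algebra.subset_adjoin ⟨t, rfl⟩
  have h1 : (⟨E t, h⟩ : T) = algebraMap S T ⟨E t, hm⟩ := rfl
  change e.symm (Ideal.Quotient.mk Q ⟨E t, h⟩) = c t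
  rw [h1, hmkψ, hψE, AlgEquiv.symm_apply_eq]
  rfl

end

end Pool.Agent.Lib.MP_410da7_ag
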