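import Pool.Agent.Lib.MP_410da7_ag.CYSystem

/-!
# The system of equations for polynomial curves: integrality
-/

set_option autoImplicit false

namespace Pool.Agent.Lib.MP_410da7_ag

open MvPolynomial

theorem integral_system {N : ℕ} {κ : Type} (F : κ → MvPolynomial (Fin N) ℂ) (w : Fin N → ℕ) (e : ℕ)
    {L : Type} [Field L] [IsAlgClosed L] [Algebra ℂ L] (p : Fin N → L)
    (hno : ∀ γ : Fin N → Polynomial L, (∀ l, (γ l).eval 0 = p l) →
      (∀ l, (γ l).natDegree ≤ e * w l) →
      (∀ k, aeval γ (F k) = Polynomial.C (aeval p (F k))) → ∀ l, (γ l).natDegree = 0)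
    {Ω : Type} [Field Ω] [Algebra ℂ Ω] [Algebra L Ω] [IsScalarTower ℂ L Ω]
    (b : Fin e → Ω) (a : (Σ l : Fin N, Fin (e * w l)) → Ω)
    (S : Subalgebra L Ω) (hb : ∀ i, b i ∈ S)
    (hF : ∀ k n, (hev w (F k) (linePoly e b)
      (curvePoly (fun l => e * w l) (fun l => algebraMap L Ω (p l)) a)).coeff (n + 1) ∈ S)
    (q : Σ l : Fin N, Fin (e * w l)) : IsIntegral S (a q) := by
  classical
  let σ := Fin e ⊕ (Σ l : Fin N, Fin (e * w l))
  let τ := Fin e ⊕ (κ × ℕ)
  let wt : σ → ℕ := Sum.elim (fun i => i.1 + 1) (fun q => q.2.1 + 1)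
  let lp : Polynomial (MvPolynomial σ L) := linePoly e (fun i => X (Sum.inl i))
  let cp : Fin N → Polynomial (MvPolynomial σ L) :=
    curvePoly (fun l => e * w l) (fun l => C (p l)) (fun q => X (Sum.inr q))
  let H : κ → Polynomial (MvPolynomial σ L) := fun k => hev w (F k) lp cp
  let E : τ → MvPolynomial σ L := Sum.elim (fun i => X (Sum.inl i)) (fun t => (H t.1).coeff (t.2 + 1))
  let dg : τ → ℕ := Sum.elim (fun i => i.1 + 1) (fun t => t.2 + 1)
  have hlp : CYSystemIso wt lp := by
    refine (CYSystemIso.one wt).add (CYSystemIso.sum _ _ fun i _ => ?_)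
    exact CYSystemIso.var wt (Sum.inl i) (i.1 + 1) rfl
  have hcp : ∀ l, CYSystemIso wt (cp l) := by
    intro l
    refine (CYSystemIso.constC wt (p l)).add (CYSystemIso.sum _ _ fun i _ => ?_)
    exact CYSystemIso.var wt (Sum.inr ⟨l, i⟩) (i.1 + 1) rfl
  have hH : ∀ k, CYSystemIso wt (H k) := by
    intro k
    show CYSystemIso wt (hev w (F k) lp cp)
    rw [hev_eq]
    refine CYSystemIso.sum _ _ fun α _ => ?_
    refine ((?_ : CYSystemIso wt _).mul (hlp.pow _)).mul (CYSystemIso.prod _ _ fun l _ => (hcp l).pow _)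
    have : algebraMap ℂ (Polynomial (MvPolynomial σ L)) ((F k).coeff α) =
        Polynomial.C (C (algebraMap ℂ L ((F k).coeff α))) := by
      rw [IsScalarTower.algebraMap_apply ℂ (MvPolynomial σ L) (Polynomial (MvPolynomial σ L)),
        IsScalarTower.algebraMap_apply ℂ L (MvPolynomial σ L)]
      rfl
    rw [this]
    exact CYSystemIso.constC wt _
  have hz : ∀ a₀ : σ → L, (∀ t, eval a₀ (E t) = 0) → a₀ = 0 := by
    intro a₀ ha₀
    have h1 : ∀ i : Fin e, a₀ (Sum.inl i) = 0 := by
      intro i
      have := ha₀ (Sum.inl i)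
      show _ = (0 : L)
      simpa [E] using this
    let γ : Fin N → Polynomial L := curvePoly (fun l => e * w l) p (fun q => a₀ (Sum.inr q))
    have h2 : linePoly e (fun i => a₀ (Sum.inl i)) = (1 : Polynomial L) := by
      rw [linePoly]
      simp [h1]
    have h3 : ∀ k n, (aeval γ (F k)).coeff (n + 1) = 0 := by
      intro k n
      have h4 := cySystem_coeff w (F k) e p a₀ (n + 1)
      rw [h2, hev_one] at h4
      have h5 := ha₀ (Sum.inr (k, n))
      have h6 : aeval a₀ ((H k).coeff (n + 1)) = 0 := by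
        exact (DFunLike.congr_fun (coe_aeval_eq_eval a₀) _).trans h5
      rw [h6] at h4
      exact h4.symm
    have h4 : ∀ k, aeval γ (F k) = Polynomial.C (aeval p (F k)) := by
      intro k
      ext n
      rcases n with _ | n
      · rw [cySystem_const, Polynomial.coeff_C_zero]
        congr 2
        funext l
        exact curvePoly_eval_zero _ _ _ l
      · rw [Polynomial.coeff_C_succ]
        exact h3 k n
    have h5 := hno γ (fun l => curvePoly_eval_zero _ _ _ l)
      (fun l => curvePoly_natDegree_le _ _ _ l) h4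
    funext s
    rcases s with i | ⟨l, i⟩
    · exact h1 i
    · have h6 := curvePoly_coeff (fun l => e * w l) p (fun q => a₀ (Sum.inr q)) l i
      have h7 : (curvePoly (fun l => e * w l) p (fun q => a₀ (Sum.inr q)) l).coeff (i.1 + 1) = 0 := by
        apply Polynomial.coeff_eq_zero_of_natDegree_lt
        have := h5 l
        show (γ l).natDegree < _
        omega
      rw [h7] at h6
      exact h6.symm
  have hX := isIntegral_of_zeroLocus wt (by rintro (i | i) <;> simp [wt]) E dg
    (by rintro (i | i) <;> simp [dg]) (by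
      rintro (i | ⟨k, n⟩)
      · exact isWeightedHomogeneous_X L wt (Sum.inl i)
      · exact hH k (n + 1)) hz (Sum.inr q)
  let v : σ → Ω := Sum.elim b a
  have hmem : ∀ t, aeval v (E t) ∈ S := by
    rintro (i | ⟨k, n⟩)
    · show aeval v (X (Sum.inl i)) ∈ S
      rw [aeval_X]
      exact hb i
    · show aeval v ((H k).coeff (n + 1)) ∈ S
      have h1 := cySystem_coeff w (F k) e p (v : σ → Ω) (n + 1)
      have h2 : aeval v ((H k).coeff (n + 1)) = _ := h1
      rw [h2]
      exact hF k n
  have hmem' : ∀ s : Algebra.adjoin L (Set.range E), aeval v (s : MvPolynomial σ L) ∈ S := by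
    rintro ⟨s, hs⟩
    change aeval v s ∈ S
    induction hs using Algebra.adjoin_induction with
    | mem x hx =>
      obtain ⟨t, rfl⟩ := hx
      exact hmem t
    | algebraMap r =>
      rw [AlgHom.commutes]
      exact S.algebraMap_mem r
    | add x y _ _ hx hy => rw [map_add]; exact S.add_mem hx hy
    | mul x y _ _ hx hy => rw [map_mul]; exact S.mul_mem hx hy
  let φ : Algebra.adjoin L (Set.range E) →+* S :=
    { toFun := fun s => ⟨aeval v (s : MvPolynomial σ L), hmem' s⟩
      map_one' := Subtype.ext (map_one (aeval v))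
      map_mul' := fun s t => Subtype.ext (map_mul (aeval v) _ _)
      map_zero' := Subtype.ext (map_zero (aeval v))
      map_add' := fun s t => Subtype.ext (map_add (aeval v) _ _) }
  have h1 := IsIntegral.map_of_comp_eq φ
    ((aeval v : MvPolynomial σ L →ₐ[L] Ω) : MvPolynomial σ L →+* Ω) (by
      ext s
      rfl) hX
  have h2 : ((aeval v : MvPolynomial σ L →ₐ[L] Ω) : MvPolynomial σ L →+* Ω) (X (Sum.inr q)) =
      a q := aeval_X v (Sum.inr q)
  rw [h2] at h1
  exact h1

end Pool.Agent.Lib.MP_410da7_ag
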