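import Pool.Agent.Lib.MP_410da7_ag.CYTaylor

/-!
# Contact at a finite point: the top coefficients
-/

set_option autoImplicit false

namespace Pool.Agent.Lib.MP_410da7_ag

open MvPolynomial

section

theorem linePoly_choose {B : Type*} [CommRing B] (m : ℕ) :
    linePoly m (fun i => ((m.choose (i.1 + 1) : ℕ) : B)) = (1 + Polynomial.X) ^ m := by
  ext k
  rw [Polynomial.coeff_one_add_X_pow, linePoly, Polynomial.coeff_add, Polynomial.finsetSum_coeff]
  rcases k with _ | k
  · rw [Polynomial.coeff_one_zero, Finset.sum_eq_zero, add_zero, Nat.choose_zero_right,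
      Nat.cast_one]
    intro i _
    rw [Polynomial.coeff_C_mul_X_pow, if_neg (by omega)]
  · rw [Polynomial.coeff_one, if_neg (by omega), zero_add]
    by_cases hk : k < m
    · rw [Finset.sum_eq_single (⟨k, hk⟩ : Fin m)]
      · rw [Polynomial.coeff_C_mul_X_pow, if_pos rfl]
      · intro j _ hj
        rw [Polynomial.coeff_C_mul_X_pow, if_neg]
        intro h
        exact hj (Fin.ext (by simp; omega))
      · simp
    · rw [Nat.choose_eq_zero_of_lt (by omega), Nat.cast_zero]
      refine Finset.sum_eq_zero fun i _ => ?_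
      rw [Polynomial.coeff_C_mul_X_pow, if_neg]
      have := i.2
      omega

variable {N : ℕ} {Ω : Type} [Field Ω] [Algebra ℂ Ω]

theorem natDegree_one_add_X_pow {B : Type*} [CommRing B] (m : ℕ) :
    ((1 + Polynomial.X : Polynomial B) ^ m).natDegree ≤ m := by
  refine (Polynomial.natDegree_pow_le).trans ?_
  have h1 : (1 + Polynomial.X : Polynomial B).natDegree ≤ 1 := by
    refine Polynomial.natDegree_add_le_of_degree_le ?_ ?_
    · rw [Polynomial.natDegree_one]; omega
    · exact Polynomial.natDegree_X_le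
  calc m * (1 + Polynomial.X : Polynomial B).natDegree ≤ m * 1 := Nat.mul_le_mul_left _ h1
    _ = m := mul_one m

theorem reflect_one_add_X_pow {B : Type*} [CommRing B] (m : ℕ) :
    Polynomial.reflect m ((1 + Polynomial.X : Polynomial B) ^ m) = (1 + Polynomial.X) ^ m := by
  ext k
  rw [Polynomial.coeff_reflect, Polynomial.coeff_one_add_X_pow, Polynomial.coeff_one_add_X_pow]
  by_cases hk : k ≤ m
  · rw [Polynomial.revAt_le hk, Nat.choose_symm hk]
  · rw [Polynomial.revAt_eq_self_of_lt (by omega)]

/-- If the top `m` coefficients of the polynomials `x_l(t)` of degree `m w_l` are those of `y_l`,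
and `x_0(t) = (1 + t)^m`, then the values of the homogenisation have small degree. -/
theorem coeff_top_shift (w : Fin N → ℕ) (hw : ∀ l, 0 < w l) (P : MvPolynomial (Fin N) ℂ)
    {m q : ℕ} (hq : q ≤ m) (p : Fin N → Ω)
    (a : (Σ l : Fin N, Fin (m * w l)) → Ω) (y : Fin N → PowerSeries Ω)
    (ha : ∀ l (i : Fin (m * w l)) (n : ℕ), n < m → i.1 + 1 + n = m * w l →
      a ⟨l, i⟩ = PowerSeries.coeff n (y l))
    (hP : PowerSeries.X ^ q ∣ hev w P ((1 + PowerSeries.X) ^ m) y) (n : ℕ)
    (hn : m * P.weightedTotalDegree w < n + q) :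
    (hev w P (linePoly m fun i => ((m.choose (i.1 + 1) : ℕ) : Ω))
      (curvePoly (fun l => m * w l) p a)).coeff n = 0 := by
  rw [linePoly_choose]
  have h0 := natDegree_one_add_X_pow (B := Ω) m
  have hγ := curvePoly_natDegree_le (fun l => m * w l) p a
  have hdeg := cyTaylor_natDegree w P m _ h0 _ hγ
  by_cases hnd : m * P.weightedTotalDegree w < n
  · exact Polynomial.coeff_eq_zero_of_natDegree_lt (lt_of_le_of_lt hdeg hnd)
  push Not at hnd
  have hrefl := cyTaylor_reflect_hev w P m _ h0 _ hγ
  rw [reflect_one_add_X_pow] at hrefl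
  have hc0 : (((1 + Polynomial.X : Polynomial Ω) ^ m : Polynomial Ω) : PowerSeries Ω) -
      (1 + PowerSeries.X) ^ m ∈ Ideal.span {(PowerSeries.X : PowerSeries Ω) ^ q} := by
    rw [Polynomial.coe_pow, Polynomial.coe_add, Polynomial.coe_one, Polynomial.coe_X, sub_self]
    exact Ideal.zero_mem _
  have hcy : ∀ l, ((Polynomial.reflect (m * w l) (curvePoly (fun l => m * w l) p a l) :
      Polynomial Ω) : PowerSeries Ω) - y l ∈
      Ideal.span {(PowerSeries.X : PowerSeries Ω) ^ q} := by
    intro l
    have hel : m ≤ m * w l := Nat.le_mul_of_pos_right _ (hw l)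
    rw [Ideal.mem_span_singleton, PowerSeries.X_pow_dvd_iff]
    intro k hk
    have hk1 : m * w l - k - 1 < m * w l := by omega
    rw [map_sub, Polynomial.coeff_coe, Polynomial.coeff_reflect, Polynomial.revAt_le (by omega)]
    have h1 := curvePoly_coeff (fun l => m * w l) p a l ⟨m * w l - k - 1, hk1⟩
    have h2 := ha l ⟨m * w l - k - 1, hk1⟩ k (by omega) (by simp; omega)
    have h3 : m * w l - k - 1 + 1 = m * w l - k := by omega
    simp only [h3] at h1
    rw [h1, h2, sub_self]
  have hcong := cyTaylor_congr w P (Ideal.span {(PowerSeries.X : PowerSeries Ω) ^ q}) _ _ hc0 _ _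
    hcy
  rw [← hrefl, Ideal.mem_span_singleton] at hcong
  have hdvd := dvd_add hcong hP
  rw [sub_add_cancel, PowerSeries.X_pow_dvd_iff] at hdvd
  have h5 := hdvd (m * P.weightedTotalDegree w - n) (by omega)
  rw [Polynomial.coeff_coe, Polynomial.coeff_reflect, Polynomial.revAt_le (by omega),
    Nat.sub_sub_self hnd] at h5
  exact h5

end

section transform

variable {L : Type} [Field L]

/-- The polynomial `(1 - t) ^ M Q (t / (1 - t))`. -/
noncomputable def affPoly (M : ℕ) (Q : Polynomial L) : Polynomial L :=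
  ∑ i ∈ Finset.range (M + 1), Polynomial.C (Q.coeff i) * Polynomial.X ^ i *
    (1 - Polynomial.X) ^ (M - i)

theorem affPoly_natDegree (M : ℕ) (Q : Polynomial L) : (affPoly M Q).natDegree ≤ M := by
  refine Polynomial.natDegree_sum_le_of_forall_le _ _ fun i hi => ?_
  rw [Finset.mem_range] at hi
  have h1 : ((1 - Polynomial.X : Polynomial L) ^ (M - i)).natDegree ≤ M - i := by
    refine (Polynomial.natDegree_pow_le).trans ?_
    have h1 : (1 - Polynomial.X : Polynomial L).natDegree ≤ 1 := by
      refine (Polynomial.natDegree_sub_le _ _).trans ?_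
      rw [Polynomial.natDegree_one, Polynomial.natDegree_X]
      simp
    calc (M - i) * (1 - Polynomial.X : Polynomial L).natDegree ≤ (M - i) * 1 :=
          Nat.mul_le_mul_left _ h1
      _ = M - i := mul_one _
  refine Polynomial.natDegree_mul_le.trans ?_
  have h2 := Polynomial.natDegree_C_mul_X_pow_le (Q.coeff i) i
  omega

theorem affPoly_eval_zero (M : ℕ) (Q : Polynomial L) : (affPoly M Q).eval 0 = Q.eval 0 := by
  rw [affPoly, Polynomial.eval_finset_sum, Finset.sum_eq_single 0]
  · simp [Polynomial.coeff_zero_eq_eval_zero]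
  · intro i _ hi
    simp [hi]
  · simp

theorem affPoly_eval_one (M : ℕ) (Q : Polynomial L) : (affPoly M Q).eval 1 = Q.coeff M := by
  rw [affPoly, Polynomial.eval_finset_sum, Finset.sum_eq_single M]
  · simp
  · intro i hi hi'
    rw [Finset.mem_range] at hi
    have : M - i ≠ 0 := by omega
    simp [this]
  · simp

theorem affPoly_eval (M : ℕ) (Q : Polynomial L) (hQ : Q.natDegree ≤ M) (t : L) (ht : 1 - t ≠ 0) :
    (affPoly M Q).eval t = (1 - t) ^ M * Q.eval (t / (1 - t)) := by
  rw [affPoly, Polynomial.eval_finset_sum, Polynomial.eval_eq_sum_range' (n := M + 1) (by omega),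
    Finset.mul_sum]
  refine Finset.sum_congr rfl fun i hi => ?_
  rw [Finset.mem_range] at hi
  have h1 : (1 - t) ^ M = (1 - t) ^ (M - i) * (1 - t) ^ i := by
    rw [← pow_add, Nat.sub_add_cancel (by omega)]
  rw [h1, div_pow]
  simp only [Polynomial.eval_mul, Polynomial.eval_C, Polynomial.eval_pow, Polynomial.eval_X,
    Polynomial.eval_sub, Polynomial.eval_one]
  field_simp

end transform

section

variable {N : ℕ} {L : Type} [Field L] [Algebra ℂ L]

theorem eval_aeval_poly (γ : Fin N → Polynomial L) (P : MvPolynomial (Fin N) ℂ) (t : L) :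
    (aeval γ P).eval t = aeval (fun l => (γ l).eval t) P := by
  let φ : Polynomial L →ₐ[ℂ] L := (Polynomial.aeval (R := L) t).restrictScalars ℂ
  have h : ∀ q : Polynomial L, φ q = q.eval t := fun q => by
    change Polynomial.aeval t q = _
    rw [Polynomial.coe_aeval_eq_eval]
  have h1 : φ.comp (aeval γ) = aeval (fun l => (γ l).eval t) := by
    ext l
    rw [AlgHom.comp_apply, aeval_X, aeval_X, h]
  rw [← h, ← h1]
  rfl

theorem eval_hev (w : Fin N → ℕ) (P : MvPolynomial (Fin N) ℂ) (x0 : Polynomial L)
    (γ : Fin N → Polynomial L) (t : L) :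
    (hev w P x0 γ).eval t = hev w P (x0.eval t) (fun l => (γ l).eval t) := by
  let φ : Polynomial L →ₐ[ℂ] L := (Polynomial.aeval (R := L) t).restrictScalars ℂ
  have h : ∀ q : Polynomial L, φ q = q.eval t := fun q => by
    change Polynomial.aeval t q = _
    rw [Polynomial.coe_aeval_eq_eval]
  have h1 := hev_map w P φ x0 γ
  simp only [h] at h1
  exact h1

/-- Passing from `x_0 = (1 + t)^m` to an affine curve. -/
theorem aeval_affPoly (w : Fin N → ℕ) (P : MvPolynomial (Fin N) ℂ) (m : ℕ)
    (γ : Fin N → Polynomial L) (hγ : ∀ l, (γ l).natDegree ≤ m * w l) (c : L)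
    (hP : hev w P ((1 + Polynomial.X) ^ m) γ =
      Polynomial.C c * (1 + Polynomial.X) ^ (m * P.weightedTotalDegree w)) :
    aeval (fun l => affPoly (m * w l) (γ l)) P = Polynomial.C c := by
  have hinf : Infinite L := by
    have : CharZero L := charZero_of_injective_algebraMap (algebraMap ℂ L).injective
    infer_instance
  apply Polynomial.eq_of_infinite_eval_eq
  have hsub : ({1}ᶜ : Set L) ⊆ {t | (aeval (fun l => affPoly (m * w l) (γ l)) P).eval t =
      (Polynomial.C c).eval t} := by
    intro t ht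
    have ht1 : 1 - t ≠ 0 := by
      intro h
      apply ht
      rw [Set.mem_singleton_iff]
      exact (sub_eq_zero.mp h).symm
    rw [Set.mem_setOf_eq, eval_aeval_poly, Polynomial.eval_C]
    have h1 : (fun l => (affPoly (m * w l) (γ l)).eval t) =
        fun l => ((1 - t) ^ m) ^ w l * (γ l).eval (t / (1 - t)) := by
      funext l
      rw [affPoly_eval _ _ (hγ l) t ht1, pow_mul]
    have h2 : 1 + t / (1 - t) = 1 / (1 - t) := by
      field_simp
      ring
    have h3 : (1 - t) ^ m * (1 + t / (1 - t)) ^ m = 1 := by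
      rw [h2, ← mul_pow, mul_one_div_cancel ht1, one_pow]
    have h4 := hev_smul w P ((1 - t) ^ m) ((1 + t / (1 - t)) ^ m)
      (fun l => (γ l).eval (t / (1 - t)))
    rw [h3, hev_one] at h4
    rw [h1, h4]
    have h5 := congrArg (fun Q : Polynomial L => Q.eval (t / (1 - t))) hP
    simp only [eval_hev, Polynomial.eval_pow, Polynomial.eval_add, Polynomial.eval_one,
      Polynomial.eval_X, Polynomial.eval_mul, Polynomial.eval_C] at h5
    rw [h5, pow_mul, mul_left_comm, ← mul_pow, h3, one_pow, mul_one]
  refine Set.Infinite.mono hsub ?_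
  exact (Set.finite_singleton (1 : L)).infinite_compl

end

end Pool.Agent.Lib.MP_410da7_ag
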