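import Pool.Agent.Lib.MP_410da7_ag.CYCore
import Pool.Agent.Lib.MP_410da7_agS.STop
import Pool.Agent.Lib.MP_410da7_agS.SAlg
import Pool.Agent.Lib.MP_410da7_agS.SSystem

/-!
# The dimension count in the equality case
-/

set_option autoImplicit false

namespace Pool.Agent.Lib.MP_410da7_ag

open MvPolynomial

theorem core_equality {N : ℕ} {κ : Type} [Fintype κ] (F : κ → MvPolynomial (Fin N) ℂ)
    (w : Fin N → ℕ) (hw : ∀ l, 0 < w l) (m : ℕ) (hm : 0 < m)
    {L : Type} [Field L] [IsAlgClosed L] [Algebra ℂ L] (p : Fin N → L)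
    (hno : ∀ γ : Fin N → Polynomial L, (∀ l, (γ l).eval 0 = p l) →
      (∀ l, (γ l).natDegree ≤ m * w l) →
      (∀ k, aeval γ (F k) = Polynomial.C (aeval p (F k))) → ∀ l, (γ l).natDegree = 0)
    {Ω : Type} [Field Ω] [Algebra ℂ Ω] [Algebra L Ω] [IsScalarTower ℂ L Ω]
    (q : κ → ℕ) (hq : ∀ k, q k ≤ m) (y : Fin N → PowerSeries Ω)
    (hy : ∀ k, PowerSeries.X ^ (q k) ∣ hev w (F k) ((1 + PowerSeries.X) ^ m) y)
    {P : Type} (D : P → Derivation L Ω Ω) (ζ : (Σ l : Fin N, Fin (m * w l)) → Ω)
    (Dz : (Σ l : Fin N, Fin (m * w l)) → Derivation L Ω Ω)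
    (hζ : ∀ z z', Dz z (ζ z') = if z = z' then 1 else 0) (hDζ : ∀ i z, D i (ζ z) = 0)
    (hy0 : ∀ z l n, Dz z (PowerSeries.coeff n (y l)) = 0)
    (hrank : N * m + ∑ k, (m * (F k).weightedTotalDegree w - q k) ≤
      Module.finrank Ω (Submodule.span Ω (Set.range fun i : P => fun l : Fin N × Fin m =>
        D i (PowerSeries.coeff l.2.1 (y l.1)))) + ∑ l, m * w l)
    (c : κ → ℕ → L) (hc : ∀ k n, m * (F k).weightedTotalDegree w < n + 1 + q k → c k n = 0)
    (h : MvPolynomial (Fin N) ℂ) (hh : aeval (fun l => PowerSeries.coeff 0 (y l)) h = 0) :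
    ∃ γ : Fin N → Polynomial L, (∀ l, (γ l).eval 0 = p l) ∧ (∀ l, (γ l).natDegree ≤ m * w l) ∧
      (∀ k n, (hev w (F k) ((1 + Polynomial.X) ^ m) γ).coeff (n + 1) = c k n) ∧
      aeval (fun l => (γ l).coeff (m * w l)) h = 0 := by
  classical
  have : CharZero L := charZero_of_injective_algebraMap (algebraMap ℂ L).injective
  have hmw : ∀ l, m ≤ m * w l := fun l => Nat.le_mul_of_pos_right m (hw l)
  let Zt := Σ l : Fin N, Fin (m * w l)
  let a : Zt → Ω := fun z => if z.2.1 + 1 + m ≤ m * w z.1 then ζ z else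
    PowerSeries.coeff (m * w z.1 - 1 - z.2.1) (y z.1)
  let b : Fin m → Ω := fun i => ((m.choose (i.1 + 1) : ℕ) : Ω)
  let E : κ → ℕ → Ω := fun k n => (hev w (F k) (linePoly m b)
      (curvePoly (fun l => m * w l) (fun l => algebraMap L Ω (p l)) a)).coeff (n + 1)
  have hE0 : ∀ k n, m * (F k).weightedTotalDegree w < n + 1 + q k → E k n = 0 := by
    intro k n hn
    refine coeff_top_shift w hw (F k) (hq k) _ a y ?_ (hy k) (n + 1) hn
    intro l i n' hn' hi
    have h1 : ¬ (i.1 + 1 + m ≤ m * w l) := by omega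
    simp only [a, if_neg h1]
    congr 2
    omega
  let D' : P ⊕ Zt → Derivation L Ω Ω := Sum.elim D Dz
  let Et := Σ k : κ, Fin (m * (F k).weightedTotalDegree w - q k)
  let A : ((P ⊕ Zt) →₀ Ω) →ₗ[Ω] (Zt → Ω) :=
    Finsupp.linearCombination Ω (fun i z => D' i (a z))
  let B : ((P ⊕ Zt) →₀ Ω) →ₗ[Ω] (Et → Ω) :=
    Finsupp.linearCombination Ω (fun i t => D' i (E t.1 t.2.1))
  have hker : LinearMap.ker B ≤ LinearMap.ker A := by
    intro c hc
    rw [LinearMap.mem_ker] at hc ⊢
    let Dc : Derivation L Ω Ω := ∑ i ∈ c.support, c i • D' i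
    have hDc : ∀ x, Dc x = ∑ i ∈ c.support, c i * D' i x := by
      intro x
      simp only [Dc]
      rw [← Derivation.coeFnAddMonoidHom_apply, map_sum, Finset.sum_apply]
      rfl
    have hA : ∀ z, A c z = Dc (a z) := by
      intro z
      simp only [A, Finsupp.linearCombination_apply, Finsupp.sum, Finset.sum_apply,
        Pi.smul_apply, smul_eq_mul, hDc]
    have hB : ∀ t, B c t = Dc (E t.1 t.2.1) := by
      intro z
      simp only [B, Finsupp.linearCombination_apply, Finsupp.sum, Finset.sum_apply,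
        Pi.smul_apply, smul_eq_mul, hDc]
    funext z
    rw [hA]
    refine der_system F w m p hno Dc b a ?_ ?_ z
    · intro i
      exact Dc.map_natCast _
    · intro k n
      by_cases hn : n + 1 + q k ≤ m * (F k).weightedTotalDegree w
      · have := hB ⟨k, ⟨n, by omega⟩⟩
        rw [hc] at this
        exact this.symm
      · have h0 : E k n = 0 := hE0 k n (by omega)
        change Dc (E k n) = 0
        rw [h0, map_zero]
  have hup := finrank_range_le_of_ker_le A B hker
  -- projection to the top coefficients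
  let ix : Fin N × Fin m → Zt := fun l => ⟨l.1, ⟨m * w l.1 - 1 - l.2.1, by
    have := hmw l.1; have := l.2.2; omega⟩⟩
  have hix : Function.Injective ix := by
    rintro ⟨l, n⟩ ⟨l', n'⟩ h
    have h1 : l = l' := congrArg Sigma.fst h
    subst h1
    have h2 := eq_of_heq (Sigma.mk.inj h).2
    have h3 : m * w l - 1 - n.1 = m * w l - 1 - n'.1 := congrArg Fin.val h2
    have := hmw l; have := n.2; have := n'.2
    have h4 : n = n' := Fin.ext (by omega)
    rw [h4]
  let pr : (Zt → Ω) →ₗ[Ω] (Fin N × Fin m → Ω) := LinearMap.funLeft Ω Ω ix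
  have hpr : Function.Surjective pr := LinearMap.funLeft_surjective_of_injective Ω Ω ix hix
  have haix : ∀ l, a (ix l) = PowerSeries.coeff l.2.1 (y l.1) := by
    intro l
    have := hmw l.1
    have hn := l.2.2
    have h1 : ¬ ((ix l).2.1 + 1 + m ≤ m * w (ix l).1) := by
      change ¬ (m * w l.1 - 1 - l.2.1 + 1 + m ≤ m * w l.1)
      omega
    simp only [a, if_neg h1]
    change PowerSeries.coeff (m * w l.1 - 1 - (m * w l.1 - 1 - l.2.1)) (y l.1) = _
    congr 2
    omega
  have hlow : ∀ z : Zt, (∀ l, z ≠ ix l) → z.2.1 + 1 + m ≤ m * w z.1 := by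
    rintro ⟨l, i⟩ hz
    by_contra h
    have hi := i.2
    have h' : ¬ (i.1 + 1 + m ≤ m * w l) := h
    refine hz (l, ⟨m * w l - 1 - i.1, by omega⟩) (Sigma.ext rfl (heq_of_eq (Fin.ext ?_)))
    change i.1 = m * w l - 1 - (m * w l - 1 - i.1)
    omega
  have hAz : ∀ z : Zt, (∀ l, z ≠ ix l) → A (Finsupp.single (Sum.inr z) 1) = Pi.single z 1 := by
    intro z hz
    funext z'
    simp only [A, Finsupp.linearCombination_single, one_smul, D', Sum.elim_inr]
    by_cases hz' : z'.2.1 + 1 + m ≤ m * w z'.1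
    · simp only [a, if_pos hz', hζ, Pi.single_apply, eq_comm]
    · simp only [a, if_neg hz', hy0]
      have : z' ≠ z := by
        rintro rfl
        exact hz' (hlow _ hz)
      rw [Pi.single_eq_of_ne this]
  have hkerR : LinearMap.ker pr ≤ LinearMap.range A := by
    intro u hu
    rw [LinearMap.mem_ker] at hu
    have hu' : ∀ l, u (ix l) = 0 := fun l => congrFun hu l
    have hsum : u = ∑ z, u z • (Pi.single z 1 : Zt → Ω) := by
      funext z'
      rw [Finset.sum_apply, Finset.sum_eq_single z']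
      · simp
      · intro z _ hz
        rw [Pi.smul_apply, Pi.single_eq_of_ne hz.symm, smul_zero]
      · intro h
        exact absurd (Finset.mem_univ _) h
    rw [hsum]
    refine Submodule.sum_mem _ fun z _ => ?_
    by_cases hz : ∀ l, z ≠ ix l
    · exact Submodule.smul_mem _ _ ⟨_, hAz z hz⟩
    · push Not at hz
      obtain ⟨l, rfl⟩ := hz
      rw [hu', zero_smul]
      exact Submodule.zero_mem _
  have hfr := finrank_of_ker_le pr hpr (LinearMap.range A) hkerR
  rw [Module.finrank_fintype_fun_eq_card, Module.finrank_fintype_fun_eq_card, Fintype.card_prod,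
    Fintype.card_fin, Fintype.card_fin, Fintype.card_sigma] at hfr
  simp only [Fintype.card_fin] at hfr
  have hspan : Submodule.span Ω (Set.range fun i : P => fun l : Fin N × Fin m =>
      D i (PowerSeries.coeff l.2.1 (y l.1))) ≤ (LinearMap.range A).map pr := by
    rw [Submodule.span_le]
    rintro _ ⟨i, rfl⟩
    refine ⟨A (Finsupp.single (Sum.inl i) 1), ⟨_, rfl⟩, ?_⟩
    funext l
    simp only [pr, LinearMap.funLeft_apply, A, Finsupp.linearCombination_single, one_smul, D',
      Sum.elim_inl, haix]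
  have hfs := Submodule.finrank_mono hspan
  -- the values of the system are algebraically independent
  have hcardE : Module.finrank Ω (Et → Ω) = ∑ k, (m * (F k).weightedTotalDegree w - q k) := by
    rw [Module.finrank_fintype_fun_eq_card, Fintype.card_sigma]
    simp
  have hBtop : LinearMap.range B = ⊤ := by
    apply Submodule.eq_top_of_finrank_eq
    refine le_antisymm (Submodule.finrank_le _) ?_
    rw [hcardE]
    omega
  let Er : Et → Ω := fun t => E t.1 t.2.1
  have hErind : AlgebraicIndependent L Er := by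
    refine algebraicIndependent_of_der Er D' ?_
    rw [← Finsupp.range_linearCombination]
    exact hBtop
  set S := Algebra.adjoin L (Set.range Er) with hS
  have hES : ∀ k n, E k n ∈ S := by
    intro k n
    by_cases hn : n + 1 + q k ≤ m * (F k).weightedTotalDegree w
    · exact Algebra.subset_adjoin ⟨⟨k, ⟨n, by omega⟩⟩, rfl⟩
    · rw [hE0 k n (by omega)]
      exact S.zero_mem
  have haint : ∀ z, a z ∈ integralClosure S Ω := fun z =>
    integral_system F w m p hno b a S (fun i => S.natCast_mem _) hES z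
  obtain ⟨Φ, hΦ⟩ := exists_hom_integralClosure Er hErind (fun t => c t.1 t.2.1)
  let T := integralClosure S Ω
  let aT : Zt → T := fun z => ⟨a z, haint z⟩
  let α : Zt → L := fun z => Φ (aT z)
  have hETm : ∀ k n, E k n ∈ T := fun k n => T.algebraMap_mem ⟨E k n, hES k n⟩
  have hΦE : ∀ k n, Φ ⟨E k n, hETm k n⟩ = c k n := by
    intro k n
    by_cases hn : n + 1 + q k ≤ m * (F k).weightedTotalDegree w
    · exact hΦ ⟨k, ⟨n, by omega⟩⟩ (hETm k n)
    · have h0 : (⟨E k n, hETm k n⟩ : T) = 0 := Subtype.ext (hE0 k n (by omega))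
      rw [h0, map_zero, hc k n (by omega)]
  let ιT : T →ₐ[L] Ω := T.val.restrictScalars L
  have hιT : ∀ z : T, ιT z = (z : Ω) := fun z => rfl
  have hιinj : Function.Injective ιT := Subtype.val_injective
  let σ := Fin m ⊕ Zt
  let vT : σ → T := Sum.elim (fun i => ((m.choose (i.1 + 1) : ℕ) : T)) aT
  let G : κ → ℕ → MvPolynomial σ L := fun k n => (hev w (F k) (linePoly m (fun i =>
      (X (Sum.inl i) : MvPolynomial σ L)))
      (curvePoly (fun l => m * w l) (fun l => C (p l)) (fun q => X (Sum.inr q)))).coeff (n + 1)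
  have hGT : ∀ k n, aeval vT (G k n) = (⟨E k n, hETm k n⟩ : T) := by
    intro k n
    apply hιinj
    have h1 : ιT (aeval vT (G k n)) = aeval (fun s => ιT (vT s)) (G k n) := by
      have h2 : ιT.comp (aeval vT) = aeval (fun s => ιT (vT s)) := by
        ext s
        simp
      rw [← h2]
      rfl
    rw [h1]
    have h3 := cySystem_coeff w (F k) m p (fun s => ιT (vT s)) (n + 1)
    refine h3.trans ?_
    change _ = E k n
    simp only [E]
    congr 3
  refine ⟨curvePoly (fun l => m * w l) p α, fun l => curvePoly_eval_zero _ _ _ l,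
    fun l => curvePoly_natDegree_le _ _ _ l, ?_, ?_⟩
  · intro k n
    have h1 : Φ (aeval vT (G k n)) = aeval (fun s => Φ (vT s)) (G k n) := by
      have h2 : Φ.comp (aeval vT) = aeval (fun s => Φ (vT s)) := by
        ext s
        simp
      rw [← h2]
      rfl
    rw [hGT, hΦE] at h1
    rw [h1]
    have h3 := cySystem_coeff w (F k) m p (fun s => Φ (vT s)) (n + 1)
    rw [← linePoly_choose]
    refine Eq.trans ?_ h3.symm
    congr 3
    · funext i
      simp [vT]
  · have hlt : ∀ l, m * w l - 1 < m * w l := fun l => by have := hmw l; omega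
    have hco : ∀ l, (curvePoly (fun l => m * w l) p α l).coeff (m * w l) =
        α ⟨l, ⟨m * w l - 1, hlt l⟩⟩ := by
      intro l
      have h1 := curvePoly_coeff (fun l => m * w l) p α l ⟨m * w l - 1, hlt l⟩
      have h2 : m * w l - 1 + 1 = m * w l := by have := hmw l; omega
      simp only [h2] at h1
      exact h1
    simp only [hco, α]
    let u : Fin N → T := fun l => aT ⟨l, ⟨m * w l - 1, hlt l⟩⟩
    have hu : ∀ l, ιT (u l) = PowerSeries.coeff 0 (y l) := by
      intro l
      have h1 := haix (l, ⟨0, hm⟩)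
      have h2 : ix (l, ⟨0, hm⟩) = ⟨l, ⟨m * w l - 1, hlt l⟩⟩ := by
        simp [ix]
      rw [h2] at h1
      exact h1
    have h4 : aeval u (map (algebraMap ℂ L) h) = 0 := by
      apply hιinj
      rw [map_zero]
      have h2 : ιT.comp (aeval u) = aeval (fun s => ιT (u s)) := by
        ext s
        simp
      have h3 : ιT (aeval u (map (algebraMap ℂ L) h)) =
          aeval (fun s => ιT (u s)) (map (algebraMap ℂ L) h) := by
        rw [← h2]
        rfl
      rw [h3, aeval_map_algebraMap]
      have h5 : (fun s => ιT (u s)) = fun l => PowerSeries.coeff 0 (y l) := funext hu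
      rw [h5, hh]
    have h6 : Φ.comp (aeval u) = aeval (fun s => Φ (u s)) := by
      ext s
      simp
    have h7 : Φ (aeval u (map (algebraMap ℂ L) h)) =
        aeval (fun s => Φ (u s)) (map (algebraMap ℂ L) h) := by
      rw [← h6]
      rfl
    rw [h4, map_zero, aeval_map_algebraMap] at h7
    exact h7.symm

end Pool.Agent.Lib.MP_410da7_ag
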