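import Pool.Agent.Lib.MP_410da7_ag.CYDiv
import Pool.Agent.Lib.MP_410da7_ag.Omega

/-!
# Valuations at which a top form is not regular are divisorial
-/

set_option autoImplicit false

namespace Pool.Agent.Lib.MP_410da7_ag

open MvPolynomial KaehlerDifferential WithZero

section

variable {K : Type} [Field K] [Algebra ℂ K]

theorem smul_logDiff_mem_regDiff (v : Valuation K ℤᵐ⁰)
    (hv : ∀ c : ℂ, c ≠ 0 → v (algebraMap ℂ K c) = 1) {p : K} (hp0 : p ≠ 0) (hp1 : v p < 1)
    (hpow : ∀ a : K, a ≠ 0 → ∃ n : ℤ, v a = v p ^ n) {θ : Ω[K⁄ℂ]} (hθ : θ ∈ logDiff v) :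
    p • θ ∈ regDiff v := by
  unfold logDiff at hθ
  induction hθ using AddSubgroup.closure_induction with
  | mem θ h =>
    rcases h with ⟨a, b, ha, hb, rfl⟩ | ⟨a, b, ha, hb, rfl⟩
    · rw [smul_smul]
      refine AddSubgroup.subset_closure ⟨p * a, b, ?_, hb, rfl⟩
      rw [map_mul]
      exact mul_le_one' hp1.le ha
    · obtain ⟨n, hn⟩ := hpow b hb
      have hvp0 : v p ≠ 0 := (Valuation.ne_zero_iff v).2 hp0
      set u : K := b * p ^ (-n) with hu
      have hu0 : u ≠ 0 := mul_ne_zero hb (zpow_ne_zero _ hp0)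
      have hu1 : v u = 1 := by
        rw [hu, map_mul, map_zpow₀, hn, ← zpow_add₀ hvp0, add_neg_cancel, zpow_zero]
      have hbu : b = u * p ^ n := by
        rw [hu, mul_assoc, ← zpow_add₀ hp0, neg_add_cancel, zpow_zero, mul_one]
      have h1 : (a / b) • D ℂ K b = a • cydivDlog b := by
        rw [cydivDlog, smul_smul, div_eq_mul_inv]
      have h2 : cydivDlog b = cydivDlog u + (n : K) • cydivDlog p := by
        conv_lhs => rw [hbu]
        rw [cydiv_dlog_mul hu0 (zpow_ne_zero _ hp0), cydiv_dlog_zpow hp0]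
      rw [h1, h2, smul_add, smul_add]
      refine AddSubgroup.add_mem _ ?_ ?_
      · refine AddSubgroup.subset_closure ⟨p * a * u⁻¹, u, ?_, hu1.le, ?_⟩
        · rw [map_mul, map_mul, map_inv₀, hu1, inv_one, mul_one]
          exact mul_le_one' hp1.le ha
        · rw [cydivDlog, smul_smul, smul_smul, mul_assoc]
      · refine AddSubgroup.subset_closure ⟨a * n, p, ?_, hp1.le, ?_⟩
        · rw [map_mul]
          exact mul_le_one' ha (cydiv_val_intCast v hv n)
        · rw [cydivDlog, smul_smul, smul_smul, smul_smul]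
          congr 1
          field_simp
  | zero => rw [smul_zero]; exact (regDiff v).zero_mem
  | add x y _ _ hx hy => rw [smul_add]; exact (regDiff v).add_mem hx hy
  | neg x _ hx => rw [smul_neg]; exact (regDiff v).neg_mem hx

/-- If the values of a top form on regular differentials are bounded by `v F`, `F ≠ 0`, then
the valuation is discrete and nontrivial, and there is a transcendence basis consisting of a
uniformizer and units with algebraically independent residues. -/
theorem exists_divisorial_reg {d : ℕ} (v : Valuation K ℤᵐ⁰)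
    (hv : ∀ c : ℂ, c ≠ 0 → v (algebraMap ℂ K c) = 1) (ξ0 : Fin d → K)
    (hξ0 : IsTranscendenceBasis ℂ ξ0) (Ψ : Ω[K⁄ℂ] [⋀^Fin d]→ₗ[K] K) (hΨ : Ψ ≠ 0) (F : K)
    (hnot : ∀ θ : Fin d → Ω[K⁄ℂ], (∀ i, θ i ∈ regDiff v) → v (Ψ θ) < v F) :
    ∃ (i0 : Fin d) (ξ : Fin d → K), IsTranscendenceBasis ℂ ξ ∧ v (ξ i0) < 1 ∧
      (∀ a : K, a ≠ 0 → ∃ n : ℤ, v a = v (ξ i0) ^ n) ∧
      ∀ P : MvPolynomial {i // i ≠ i0} ℂ, P ≠ 0 →
        v (aeval (fun i : {i // i ≠ i0} => ξ i) P) = 1 := by
  classical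
  obtain ⟨b0, hb0⟩ := exists_kaehlerBasis ξ0 hξ0
  have hΨb0 : Ψ b0 ≠ 0 := by
    intro h0
    apply hΨ
    ext θ
    have := DFunLike.congr_fun (Ψ.eq_smul_basis_det b0) θ
    rw [this]
    simp [h0]
  have hF0 : F ≠ 0 := by
    have h1 := hnot (fun _ => 0) (fun _ => (regDiff v).zero_mem)
    have h2 : v F ≠ 0 := ne_of_gt (lt_of_le_of_lt zero_le h1)
    exact (Valuation.ne_zero_iff v).1 h2
  obtain ⟨p, hp0, hp1, hpow⟩ := exists_unif v (by
    by_contra hcon
    push Not at hcon
    have hle : ∀ a : K, v a ≤ 1 := by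
      intro a
      by_cases ha : a = 0
      · rw [ha, map_zero]; exact zero_le
      · exact (hcon a ha).le
    have h1 := hnot b0 (fun i => by
      rw [hb0]
      exact AddSubgroup.subset_closure ⟨1, ξ0 i, hle _, hle _, (one_smul _ _).symm⟩)
    rw [hcon _ hF0, hcon _ hΨb0] at h1
    exact lt_irrefl _ h1)
  have hvp0 : v p ≠ 0 := (Valuation.ne_zero_iff v).2 hp0
  refine exists_divisorial v hv ξ0 hξ0 Ψ hΨ (F / p ^ d) fun θ hθ => ?_
  have h1 := hnot (fun i => p • θ i) (fun i => smul_logDiff_mem_regDiff v hv hp0 hp1 hpow (hθ i))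
  have h2 : Ψ (fun i => p • θ i) = p ^ d * Ψ θ := by
    rw [AlternatingMap.map_smul_univ]
    simp
  rw [h2, map_mul, map_pow] at h1
  rw [map_div₀, map_pow]
  have h3 : (0 : ℤᵐ⁰) < v p ^ d := pow_pos (zero_lt_iff.2 hvp0) d
  rw [lt_div_iff₀ h3, mul_comm]
  exact h1

end

section

variable {N r d : ℕ} {K : Type} [Field K] [Algebra ℂ K] (x : Fin N → K)

/-- On a complete intersection, the gradients of the equations are linearly independent at the
generic point. -/
theorem linInd_of_dim (f : Fin r → MvPolynomial (Fin N) ℂ) (G0 : MvPolynomial (Fin N) ℂ)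
    (u : Fin d → K) (hu : IsTranscendenceBasis ℂ u)
    (H1 : ∀ a : K, ∃ P Q : MvPolynomial (Fin N) ℂ, aeval x Q ≠ 0 ∧ a * aeval x Q = aeval x P)
    (H2 : ∀ P : MvPolynomial (Fin N) ℂ, aeval x P = 0 →
      ∃ n : ℕ, G0 ^ n * P ∈ Ideal.span (Set.range f))
    (H3 : ∀ k, aeval x (f k) = 0) (H3' : aeval x G0 ≠ 0) (hdim : d + r = N) :
    LinearIndependent K (fun k => grad x (f k)) := by
  classical
  obtain ⟨b, hb⟩ := exists_kaehlerBasis u hu
  have : Module.Finite K Ω[K⁄ℂ] := Module.Finite.of_basis b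
  have hfin : Module.finrank K Ω[K⁄ℂ] = d := by
    rw [Module.finrank_eq_card_basis b, Fintype.card_fin]
  set W : Submodule K (Fin N → K) := Submodule.span K (Set.range fun k => grad x (f k)) with hW
  obtain ⟨S, hS⟩ := exists_section x f G0 W (fun k => Submodule.subset_span ⟨k, rfl⟩) H1 H2 H3 H3'
  have hker : LinearMap.ker (dmap x) ≤ W := by
    intro ξ hξ
    rw [LinearMap.mem_ker] at hξ
    have h1 := hS ξ
    rw [hξ, map_zero, eq_comm, Submodule.mkQ_apply, Submodule.Quotient.mk_eq_zero] at h1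
    exact h1
  have h1 := LinearMap.finrank_range_add_finrank_ker (dmap x)
  rw [LinearMap.range_eq_top.2 (dmap_surjective x H1), finrank_top, hfin, Module.finrank_fin_fun]
    at h1
  have h2 := Submodule.finrank_mono hker
  rw [linearIndependent_iff_card_le_finrank_span, Fintype.card_fin]
  change r ≤ Module.finrank K W
  omega

end

end Pool.Agent.Lib.MP_410da7_ag
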