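import Pool.Agent.Lib.MP_410da7_ag.CYMain
import Pool.Agent.Lib.MP_410da7_agS.SCount
import Pool.Agent.Lib.MP_410da7_agS.SDiv

/-!
# A valuation with centre on the variety at which the canonical form is not regular gives curves
-/

set_option autoImplicit false

namespace Pool.Agent.Lib.MP_410da7_ag

open MvPolynomial WithZero KaehlerDifferential

section

variable {N r s : ℕ}

theorem curves_of_centred {d : ℕ} (f : Fin r → MvPolynomial (Fin N) ℂ)
    (g : Fin s → MvPolynomial (Fin N) ℂ) (w : Fin N → ℕ) (hw : ∀ l, 0 < w l)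
    (hle : ∑ k, (f k).weightedTotalDegree w + ∑ j, (g j).weightedTotalDegree w ≤ ∑ l, w l)
    {K : Type} [Field K] [Algebra ℂ K] (x : Fin N → K) (H3 : ∀ k, aeval x (f k) = 0)
    (H1 : ∀ a : K, ∃ P Q : MvPolynomial (Fin N) ℂ, aeval x Q ≠ 0 ∧ a * aeval x Q = aeval x P)
    (H4 : LinearIndependent K (fun k => grad x (f k)))
    (σ : Fin r ⊕ Fin d ≃ Fin N) (η : ⋀[K]^d Ω[K⁄ℂ])
    (hη : ∀ ξ : Fin d → (Fin N → K), exteriorPower.ιMulti K d (fun i => dmap x (ξ i)) =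
        (Matrix.det (Matrix.of fun i j => Sum.elim (fun k => grad x (f k)) ξ i (σ j))) • η)
    (Ψ : Ω[K⁄ℂ] [⋀^Fin d]→ₗ[K] K) (hΨ0 : Ψ ≠ 0)
    (hΨ : ∀ (θ : Fin d → Ω[K⁄ℂ]) (c : K), exteriorPower.ιMulti K d θ = c • η → Ψ θ = c)
    (ξ0 : Fin d → K) (hξ0 : IsTranscendenceBasis ℂ ξ0)
    (v : Valuation K ℤᵐ⁰) (hv : ∀ c : ℂ, c ≠ 0 → v (algebraMap ℂ K c) = 1)
    (hvx : ∀ l, v (x l) ≤ 1) (hvg : ∀ j, v (aeval x (g j)) = 1)
    (hnot : ∀ θ : Fin d → Ω[K⁄ℂ], (∀ i, θ i ∈ regDiff v) →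
      v (Ψ θ) < v (∏ j, aeval x (g j))⁻¹) :
    ∃ (e : ℕ) (h : MvPolynomial (Fin N) ℂ), aeval x h ≠ 0 ∧
      ∀ (L : Type) [Field L] [IsAlgClosed L] [Algebra ℂ L] (p : Fin N → L),
      (∀ k, aeval p (f k) = 0) → aeval p h ≠ 0 →
      ∃ γ : Fin N → Polynomial L, (∀ l, (γ l).eval 0 = p l) ∧ (∀ l, (γ l).natDegree ≤ e * w l) ∧
        (∃ l, 0 < (γ l).natDegree) ∧
        (∀ k, aeval γ (f k) = Polynomial.C (aeval p (f k))) ∧
        (∀ j, aeval γ (g j) = Polynomial.C (aeval p (g j))) := by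
  classical
  obtain ⟨i0, ξ, hξ, h1, h2, h3⟩ := exists_divisorial_reg v hv ξ0 hξ0 Ψ hΨ0 _ hnot
  obtain ⟨δ, hδ⟩ := exists_dual_der ξ hξ
  obtain ⟨bK, hbK⟩ := exists_kaehlerBasis ξ hξ
  choose ρ hρ using fun i => dmap_surjective x H1 (D ℂ K (ξ i))
  set Q : Matrix (Fin r ⊕ Fin d) (Fin r ⊕ Fin d) K :=
    Matrix.of fun i j => Sum.elim (fun k => grad x (f k)) ρ i (σ j) with hQ
  have hQη := hη ρ
  have hbK' : (fun i => dmap x (ρ i)) = (bK : Fin d → Ω[K⁄ℂ]) := by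
    funext i
    rw [hρ, hbK]
  have hQ0 : Q.det ≠ 0 := by
    intro h0
    rw [← hQ, h0, zero_smul, hbK'] at hQη
    exact iotaMulti_basis_ne_zero bK hQη
  have hΨQ : Ψ (fun i => D ℂ K (ξ i)) = Q.det := by
    have : (fun i => D ℂ K (ξ i)) = fun i => dmap x (ρ i) := by
      funext i
      rw [hρ]
    rw [this]
    exact hΨ _ _ hQη
  obtain ⟨s', hs, hdet⟩ := exists_frame x f H3 ξ ρ hρ σ hQ0 δ hδ
  set S : Matrix (Fin r ⊕ Fin d) (Fin r ⊕ Fin d) K :=
    Matrix.of fun i j => Sum.elim s' (fun i l => δ i (x l)) i (σ j) with hS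
  have hSQ : S.det * Q.det = 1 := hdet
  have hS0 : S.det ≠ 0 := left_ne_zero_of_mul_eq_one hSQ
  have hπ0 : ξ i0 ≠ 0 := hξ.1.ne_zero i0
  have hvπ0 : v (ξ i0) ≠ 0 := by rwa [Valuation.ne_zero_iff]
  have hunit : ∀ i, i ≠ i0 → v (ξ i) = 1 := by
    intro i hi
    have := h3 (X ⟨i, hi⟩) (X_ne_zero _)
    rwa [aeval_X] at this
  have hξle : ∀ i, v (ξ i) ≤ 1 := by
    intro i
    by_cases hi : i = i0
    · subst hi; exact h1.le
    · exact (hunit i hi).le
  -- the inequality at the regular basis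
  have hkey : v Q.det < 1 := by
    have h4 := hnot (fun i => D ℂ K (ξ i)) (by
      intro i
      exact AddSubgroup.subset_closure ⟨1, ξ i, (map_one v).le, hξle i, (one_smul _ _).symm⟩)
    rw [hΨQ, map_inv₀, map_prod, Finset.prod_congr rfl fun j _ => hvg j, Finset.prod_const_one,
      inv_one] at h4
    exact h4
  -- the order function
  choose ν0 hν0 using h2
  let ν : K → ℤ := fun a => if h : a ≠ 0 then ν0 a h else 0
  have hν : ∀ a : K, a ≠ 0 → v a = v (ξ i0) ^ ν a := by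
    intro a ha
    simp only [ν, dif_pos ha]
    exact hν0 a ha
  have hlt : ∀ a b : ℤ, v (ξ i0) ^ a < v (ξ i0) ^ b → b < a := by
    intro a b hab
    by_contra! hle'
    exact absurd hab (not_lt.2 (zpow_anti hvπ0 h1 hle'))
  have hle0 : ∀ a : K, a ≠ 0 → v a ≤ 1 → 0 ≤ ν a := by
    intro a ha hva
    by_contra! hneg
    have h5 : v (ξ i0) ^ (0 : ℤ) < v (ξ i0) ^ ν a := by
      have h6 : v (ξ i0) ^ (1 : ℤ) * v (ξ i0) ^ ν a ≤ 1 * v (ξ i0) ^ ν a := by
        rw [zpow_one]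
        exact mul_le_mul_left h1.le _
      have h7 : v (ξ i0) ^ (0 : ℤ) ≤ v (ξ i0) ^ (1 + ν a) := zpow_anti hvπ0 h1 (by omega)
      rw [zpow_add₀ hvπ0] at h7
      have h8 : v (ξ i0) ^ (1 : ℤ) * v (ξ i0) ^ ν a < v (ξ i0) ^ ν a := by
        rw [zpow_one]
        have h9 : (0 : ℤᵐ⁰) < v (ξ i0) ^ ν a := zero_lt_iff.2 (zpow_ne_zero _ hvπ0)
        exact mul_lt_of_lt_one_left h9 h1
      exact lt_of_le_of_lt h7 h8
    rw [zpow_zero, ← hν a ha] at h5
    exact absurd hva (not_le.2 h5)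
  have hbad : ν S.det + 1 ≤ 0 := by
    have hQS : Q.det = (S.det)⁻¹ := eq_inv_of_mul_eq_one_right hSQ
    rw [hQS, map_inv₀, hν _ hS0, ← zpow_neg, ← zpow_zero (v (ξ i0))] at hkey
    have := hlt _ _ hkey
    omega
  -- a function vanishing at the centre
  have hPle : ∀ P : MvPolynomial (Fin N) ℂ, v (aeval x P) ≤ 1 := by
    intro P
    induction P using MvPolynomial.induction_on with
    | C a =>
      rw [aeval_C]
      by_cases ha : a = 0
      · simp [ha]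
      · exact (hv a ha).le
    | add p q hp hq =>
      rw [map_add]
      exact (v.map_add _ _).trans (max_le hp hq)
    | mul_X p i hp =>
      rw [map_mul, map_mul, aeval_X]
      exact mul_le_one' hp (hvx i)
  obtain ⟨h, hh0, hh1⟩ : ∃ h : MvPolynomial (Fin N) ℂ, aeval x h ≠ 0 ∧ v (aeval x h) < 1 := by
    obtain ⟨P, Q, hQ, hPQ⟩ := H1 (ξ i0)
    refine ⟨P, ?_, ?_⟩
    · rw [← hPQ]
      exact mul_ne_zero hπ0 hQ
    · rw [← hPQ, map_mul]
      exact lt_of_le_of_lt (mul_le_of_le_one_right' (hPle Q)) h1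
  have hhν : 0 < ν (aeval x h) := by
    rw [hν _ hh0, ← zpow_zero (v (ξ i0))] at hh1
    exact hlt _ _ hh1
  -- numbers
  let C2 : ℕ := ∑ k, ∑ l, (ν (s' k l)).natAbs + ∑ i, ∑ k, ∑ l, (ν (δ i (s' k l))).natAbs
  let D1 : ℤ := 1 + r * C2 + ν S.det
  let jj : ℕ := C2 + D1.natAbs + 1
  have hC1 : ∀ k l, (ν (s' k l)).natAbs ≤ ∑ k, ∑ l, (ν (s' k l)).natAbs := fun k l =>
    (Finset.single_le_sum (f := fun l => (ν (s' k l)).natAbs) (fun _ _ => Nat.zero_le _)
      (Finset.mem_univ l)).trans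
    (Finset.single_le_sum (f := fun k => ∑ l, (ν (s' k l)).natAbs) (fun _ _ => Nat.zero_le _)
      (Finset.mem_univ k))
  have hC3 : ∀ i k l, (ν (δ i (s' k l))).natAbs ≤
      ∑ i, ∑ k, ∑ l, (ν (δ i (s' k l))).natAbs := fun i k l =>
    ((Finset.single_le_sum (f := fun l => (ν (δ i (s' k l))).natAbs) (fun _ _ => Nat.zero_le _)
      (Finset.mem_univ l)).trans
    (Finset.single_le_sum (f := fun k => ∑ l, (ν (δ i (s' k l))).natAbs)
      (fun _ _ => Nat.zero_le _) (Finset.mem_univ k))).trans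
    (Finset.single_le_sum (f := fun i => ∑ k, ∑ l, (ν (δ i (s' k l))).natAbs)
      (fun _ _ => Nat.zero_le _) (Finset.mem_univ i))
  have hxν : ∀ l, x l ≠ 0 → 0 ≤ ν (x l) := fun l hl => hle0 _ hl (hvx l)
  have hf1 : ∀ k, 0 < (f k).weightedTotalDegree w := by
    intro k
    rw [Nat.pos_iff_ne_zero]
    intro h0
    have h12 := eq_C_of_weightedTotalDegree_eq_zero w hw (f k) h0
    apply H4.ne_zero k
    funext l
    simp only [grad]
    rw [h12, pderiv_C, map_zero]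
    rfl
  refine ⟨2 * jj, h, hh0, fun L _ _ _ p hp hph => ?_⟩
  by_contra hcon
  push Not at hcon
  apply hph
  refine count_fin f g w hw hle hf1 x H3 v i0 ξ hξ h1 ν hν h3 δ hδ σ s' hs S hS hS0 0 rfl C2 jj
    (2 * jj) rfl (by simp only [jj]; omega) D1 ?_ ?_ ?_ ?_ ?_ ?_ hbad h hh0 hhν p hp ?_
  · intro l hl
    have := hxν l hl
    simpa using this
  · intro k l _
    have h13 := hC1 k l
    simp only [Nat.cast_zero, zero_mul, sub_zero]
    simp only [C2]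
    omega
  · intro i k l _
    have h13 := hC3 i k l
    simp only [Nat.cast_zero, zero_mul, sub_zero]
    simp only [C2]
    omega
  · simp only [jj]
    omega
  · simp only [D1]
    push_cast
    ring
  · simp only [jj]
    omega
  · intro γ hγ0 hγd hγf hγg l
    by_contra hl
    exact (hcon γ hγ0 hγd ⟨l, Nat.pos_of_ne_zero hl⟩ hγf).elim fun j hj => hj (hγg j)

end

end Pool.Agent.Lib.MP_410da7_ag
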