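import Pool.Agent.Lib.MP_410da7_agS.SBad
import Pool.Agent.Lib.MP_410da7_agS.SGen

/-!
# Log Calabi–Yau degree without smoothness: the equivalences
-/

set_option autoImplicit false

namespace Pool.Agent.Lib.MP_410da7_ag

open MvPolynomial WithZero KaehlerDifferential

section

variable {N r s : ℕ}

theorem a1_of_genusZero (f : Fin r → MvPolynomial (Fin N) ℂ)
    (g : Fin s → MvPolynomial (Fin N) ℂ) (w : Fin N → ℕ) (hw : ∀ l, 0 < w l)
    (hle : ∑ k, (f k).weightedTotalDegree w + ∑ j, (g j).weightedTotalDegree w ≤ ∑ l, w l)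
    {R K : Type} [CommRing R] [IsDomain R] [Algebra ℂ R] [Field K] [Algebra R K]
    [IsFractionRing R K] [Algebra ℂ K] [IsScalarTower ℂ R K]
    (xR : Fin N → R) (hR : IsCoordRing f g xR) (hdim : dim R + r = N)
    (hK : LogGenusZero R K) : A1Uniruled R := by
  classical
  have hn := trdeg_isCoordRing f g xR hR
  have hinj : Function.Injective (algebraMap R K) := IsFractionRing.injective R K
  let x : Fin N → K := fun l => algebraMap R K (xR l)
  have hax : ∀ P : MvPolynomial (Fin N) ℂ, aeval x P = algebraMap R K (aeval xR P) := by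
    intro P
    have := MvPolynomial.map_aeval (R := ℂ) xR (algebraMap R K) P
    rw [← IsScalarTower.algebraMap_eq] at this
    rw [this]
    rfl
  obtain ⟨u, hu⟩ := exists_basis_fin hn K
  have H1 : ∀ a : K, ∃ P Q : MvPolynomial (Fin N) ℂ, aeval x Q ≠ 0 ∧
      a * aeval x Q = aeval x P := by
    intro a
    obtain ⟨a1, a2, ha2, rfl⟩ := IsFractionRing.div_surjective (A := R) a
    obtain ⟨k1, P1, h1⟩ := hR.surj a1
    obtain ⟨k2, P2, h2⟩ := hR.surj a2
    have ha20 : a2 ≠ 0 := nonZeroDivisors.ne_zero ha2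
    have hG : aeval x (∏ j, g j) ≠ 0 := by
      rw [hax]
      intro h0
      have h0' := hinj (h0.trans (map_zero _).symm)
      rw [map_prod] at h0'
      obtain ⟨j, _, hj⟩ := Finset.prod_eq_zero_iff.1 h0'
      exact (hR.unit j).ne_zero hj
    have ha2K : algebraMap R K a2 ≠ 0 := by
      intro h0
      exact ha20 (hinj (h0.trans (map_zero _).symm))
    have e1 : algebraMap R K a1 * aeval x (∏ j, g j) ^ k1 = aeval x P1 := by
      rw [hax, hax, ← map_pow, ← map_mul, h1]
    have e2 : algebraMap R K a2 * aeval x (∏ j, g j) ^ k2 = aeval x P2 := by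
      rw [hax, hax, ← map_pow, ← map_mul, h2]
    refine ⟨P1 * (∏ j, g j) ^ k2, P2 * (∏ j, g j) ^ k1, ?_, ?_⟩
    · rw [map_mul, map_pow, ← e2]
      exact mul_ne_zero (mul_ne_zero ha2K (pow_ne_zero _ hG)) (pow_ne_zero _ hG)
    · rw [map_mul, map_mul, map_pow, map_pow, ← e1, ← e2]
      field_simp
  have H2 : ∀ P : MvPolynomial (Fin N) ℂ, aeval x P = 0 →
      ∃ n : ℕ, (∏ j, g j) ^ n * P ∈ Ideal.span (Set.range f) := by
    intro P hP
    apply hR.ker
    apply hinj
    rw [map_zero, ← hax, hP]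
  have H3 : ∀ k, aeval x (f k) = 0 := by
    intro k
    rw [hax, hR.zero, map_zero]
  have H3g : ∀ j, aeval x (g j) ≠ 0 := by
    intro j h0
    rw [hax] at h0
    exact (hR.unit j).ne_zero (hinj (h0.trans (map_zero _).symm))
  have H3' : aeval x (∏ j, g j) ≠ 0 := by
    rw [map_prod]; exact Finset.prod_ne_zero_iff.2 fun j _ => H3g j
  have H4 : LinearIndependent K (fun k => grad x (f k)) :=
    linInd_of_dim x f (∏ j, g j) u hu H1 H2 H3 H3' hdim
  let σ : Fin r ⊕ Fin (dim R) ≃ Fin N := Fintype.equivOfCardEq (by simp; omega)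
  obtain ⟨η, hη0, hη⟩ := exists_eta x f u hu H1 H3 H4 σ
  obtain ⟨b, hb⟩ := exists_kaehlerBasis u hu
  obtain ⟨Ψ, hΨ0, hΨ⟩ := exists_psi_of_eta b η hη0
  have hprod0 : (∏ j, aeval x (g j)) ≠ 0 := Finset.prod_ne_zero_iff.2 fun j _ => H3g j
  have hF0 : (∏ j, aeval x (g j))⁻¹ ≠ 0 := inv_ne_zero hprod0
  -- the generic point
  have hinjR : Function.Injective (algebraMap R (AlgebraicClosure K)) := by
    rw [IsScalarTower.algebraMap_eq R K (AlgebraicClosure K)]
    exact (algebraMap K (AlgebraicClosure K)).injective.comp (IsFractionRing.injective R K)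
  have halg : Algebra.IsAlgebraic R (AlgebraicClosure K) :=
    (IsFractionRing.comap_isAlgebraic_iff (K := K)).mpr inferInstance
  have htow : IsScalarTower ℂ R (AlgebraicClosure K) := by
    refine IsScalarTower.of_algebraMap_eq fun c => ?_
    rw [IsScalarTower.algebraMap_apply ℂ K (AlgebraicClosure K),
      IsScalarTower.algebraMap_apply ℂ R K, ← IsScalarTower.algebraMap_apply R K]
  let p : Fin N → AlgebraicClosure K := fun l => algebraMap R (AlgebraicClosure K) (xR l)
  have hpa : ∀ P : MvPolynomial (Fin N) ℂ, aeval p P =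
      algebraMap R (AlgebraicClosure K) (aeval xR P) := by
    intro P
    have := MvPolynomial.map_aeval (R := ℂ) xR (algebraMap R (AlgebraicClosure K)) P
    rw [← IsScalarTower.algebraMap_eq] at this
    rw [this]
    rfl
  obtain ⟨e', he'⟩ := exists_equiv f g xR hR
  have hft : Algebra.FiniteType ℂ (CoordRing f g) := inferInstance
  have hRft : Algebra.FiniteType ℂ R := Algebra.FiniteType.of_surjective e'.toAlgHom e'.surjective
  have hU := universal_of_isCoordRing f g xR e' he' hR.zero hR.unit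
  have hfinal : ∀ e : ℕ, (∃ γ : Fin N → Polynomial (AlgebraicClosure K),
      (∀ l, (γ l).eval 0 = p l) ∧ (∀ l, (γ l).natDegree ≤ e * w l) ∧
        (∃ l, 0 < (γ l).natDegree) ∧
        (∀ k, aeval γ (f k) = Polynomial.C (aeval p (f k))) ∧
        (∀ j, aeval γ (g j) = Polynomial.C (aeval p (g j)))) → A1Uniruled R := by
    rintro e ⟨γ, hγ0, -, ⟨l, hl⟩, hγf, hγg⟩
    exact a1Uniruled_of_curve f g hRft hU (E := AlgebraicClosure K) hinjR γ hγ0 l hl hγf hγg
  by_contra hcon
  apply hF0
  refine hK Ψ _ hΨ0 fun v hv => ?_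
  by_contra hadm
  apply hcon
  have hF0v : v (∏ j, aeval x (g j))⁻¹ ≠ 0 := by
    rw [Valuation.ne_zero_iff]
    exact hF0
  by_cases hreg : (∀ l, v (x l) ≤ 1) ∧ (∀ j, v (aeval x (g j)) = 1)
  · obtain ⟨e, h, hh0, hcurve⟩ := curves_of_centred f g w hw hle x H3 H1 H4 σ η hη Ψ hΨ0 hΨ u hu
      v hv hreg.1 hreg.2 (by
        intro θ hθ
        by_contra! hge
        apply hadm
        have hΨv : v (Ψ θ) ≠ 0 := fun h0 => hF0v (le_zero_iff.1 (h0 ▸ hge))
        have hΨθ : Ψ θ ≠ 0 := by rwa [Valuation.ne_zero_iff] at hΨv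
        refine ⟨θ, (∏ j, aeval x (g j))⁻¹ / Ψ θ, fun i => regDiff_le_logDiff v (hθ i),
          fun _ => hθ, ?_, ?_⟩
        · rw [map_div₀]
          exact div_le_one_of_le₀ hge zero_le
        · rw [pow_one]
          field_simp)
    refine hfinal e (hcurve (AlgebraicClosure K) p ?_ ?_)
    · intro k
      rw [hpa, hR.zero, map_zero]
    · rw [hpa]
      intro h0
      apply hh0
      rw [hax]
      have h1 := hinjR (h0.trans (map_zero _).symm)
      rw [h1, map_zero]
  · obtain ⟨e, hcurve⟩ := curves_of_bad f g w hw hle x H3 H3g H1 H4 σ η hη0 hη Ψ hΨ0 hΨ u hu v hv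
      (by
        intro θ hθ
        by_contra! hge
        apply hadm
        have hΨv : v (Ψ θ) ≠ 0 := fun h0 => hF0v (le_zero_iff.1 (h0 ▸ hge))
        have hΨθ : Ψ θ ≠ 0 := by rwa [Valuation.ne_zero_iff] at hΨv
        refine ⟨θ, (∏ j, aeval x (g j))⁻¹ / Ψ θ, hθ, ?_, ?_, ?_⟩
        · intro hRv
          exfalso
          apply hreg
          refine ⟨fun l => hRv _, fun j => ?_⟩
          obtain ⟨y, hy⟩ := (hR.unit j).exists_right_inv
          have h6 : v (aeval x (g j)) * v (algebraMap R K y) = 1 := by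
            rw [hax, ← map_mul, ← map_mul, hy, map_one, map_one]
          refine le_antisymm (by rw [hax]; exact hRv _) ?_
          rw [← h6]
          exact mul_le_of_le_one_right' (hRv y)
        · rw [map_div₀]
          exact div_le_one_of_le₀ hge zero_le
        · rw [pow_one]
          field_simp)
    exact hfinal e (hcurve (AlgebraicClosure K) p)

/-- Log Calabi–Yau degree: Q1 for all resolutions of irreducible complete intersections. -/
theorem sing_tfae (f : Fin r → MvPolynomial (Fin N) ℂ)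
    (g : Fin s → MvPolynomial (Fin N) ℂ) (w : Fin N → ℕ) (hw : ∀ l, 0 < w l)
    (hle : ∑ k, (f k).weightedTotalDegree w + ∑ j, (g j).weightedTotalDegree w ≤ ∑ l, w l)
    {R K : Type} [CommRing R] [IsDomain R] [Algebra ℂ R] [Field K] [Algebra R K]
    [IsFractionRing R K] [Algebra ℂ K] [IsScalarTower ℂ R K]
    (x : Fin N → R) (hR : IsCoordRing f g x) (hdim : dim R + r = N) :
    List.TFAE [A1Uniruled R, LogKodairaNegInf R K, LogGenusZero R K,
      ∃ e : ℕ, ∀ u ∈ Points f g, OnAffineLine f g (fun l => e * w l) u] := by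
  tfae_have 1 → 2 := logKodairaNegInf_of_a1Uniruled
  tfae_have 2 → 3 := logGenusZero_of_negInf
  tfae_have 3 → 1 := a1_of_genusZero f g w hw hle x hR hdim
  tfae_have 1 → 4 := points_of_a1Uniruled f g w hw x hR
  tfae_have 4 → 1 := by
    rintro ⟨e, he⟩
    exact a1Uniruled_of_points (K := K) f g _ x hR he
  tfae_finish

end

end Pool.Agent.Lib.MP_410da7_ag
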